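import Pool.Agent.helper65.GD.SpecD

/-! # MP_ea335c, row GAK -/

set_option autoImplicit false

namespace Pool.Agent.GD

open Finset Metric Filter Topology

/-- The bound for the two coefficients, from `KEZ` and `NUM`. -/
theorem GAK_bd (hKEZ : KEZ_stmt) (hNUM : NUM_stmt) (p k N N' : ℕ) (w : Fin N → ℝ) (x : Fin N → ℂ)
    (u : Fin N' → ℝ) (y : Fin N' → ℂ) (G H : ℕ → ℂ) (hp : 1 ≤ p) (hk : 1 ≤ k) (hw : Atomic N w x)
    (hu : Atomic N' u y) (hG : Rec (2 * p) (mom w x) G) (hH : Rec (-(2 * p)) (mom w x) H) (j : ℕ)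
    (hj1 : 1 ≤ j) (hjp : j ≤ p) (E : ℂ) (hE : E = ∑ l, (u l : ℂ) * pol G k (y l)) :
    ‖al p k (p - j) G H + om p k G E * H (p - j)‖ +
      ‖be p k (p - j) G H - om p k G E * (starRingEnd ℂ) (H (p - j))‖ ≤
      ((p : ℝ) + k) / j * AA p (p + k) j := by
  have hp0 : (0 : ℝ) < p := by exact_mod_cast hp
  have hk0 : (0 : ℝ) < k := by exact_mod_cast hk
  have hn0 : (0 : ℝ) < (p : ℝ) + k := by positivity
  obtain ⟨i, hi⟩ : ∃ i, i = p - j := ⟨_, rfl⟩
  have hji : j = p - i := by omega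
  have hip : i < p := by omega
  have hi' : (i : ℝ) < p := by exact_mod_cast hip
  have hi0 : (0 : ℝ) ≤ i := Nat.cast_nonneg _
  have hjr : (j : ℝ) = p - i := by rw [hji, Nat.cast_sub hip.le]
  have hj0 : (0 : ℝ) < j := by exact_mod_cast hj1
  rw [← hi]
  -- the common set of points
  have hat1 : Atomic (N + N') (Fin.append w (fun _ => 0)) (Fin.append x y) := by
    refine ⟨fun l => ?_, ?_, fun l => ?_⟩
    · refine Fin.addCases (fun l => ?_) (fun l => ?_) l
      · rw [Fin.append_left]; exact hw.1 l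
      · rw [Fin.append_right]
    · rw [Fin.sum_univ_add]
      simp only [Fin.append_left, Fin.append_right, sum_const_zero, add_zero]
      exact hw.2.1
    · refine Fin.addCases (fun l => ?_) (fun l => ?_) l
      · rw [Fin.append_left]; exact hw.2.2 l
      · rw [Fin.append_right]; exact hu.2.2 l
  have hat2 : Atomic (N + N') (Fin.append (fun _ => 0) u) (Fin.append x y) := by
    refine ⟨fun l => ?_, ?_, hat1.2.2⟩
    · refine Fin.addCases (fun l => ?_) (fun l => ?_) l
      · rw [Fin.append_left]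
      · rw [Fin.append_right]; exact hu.1 l
    · rw [Fin.sum_univ_add]
      simp only [Fin.append_left, Fin.append_right, sum_const_zero, zero_add]
      exact hu.2.1
  have hmom : mom (Fin.append w (fun _ : Fin N' => (0 : ℝ))) (Fin.append x y) = mom w x := by
    funext m
    rw [mom, Fin.sum_univ_add]
    simp only [Fin.append_left, Fin.append_right, Complex.ofReal_zero, zero_mul, sum_const_zero,
      add_zero]
    rfl
  have hsum : ∑ l : Fin (N + N'), ((Fin.append (fun _ : Fin N => (0 : ℝ)) u l : ℝ) : ℂ) *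
      pol G k (Fin.append x y l) = E := by
    rw [hE, Fin.sum_univ_add]
    simp only [Fin.append_left, Fin.append_right, Complex.ofReal_zero, zero_mul, sum_const_zero,
      zero_add]
  obtain ⟨h1, h2⟩ := hKEZ p k i (N + N') _ _ _ G H hp hk hip hat1 hat2 (by rw [hmom]; exact hG)
    (by rw [hmom]; exact hH)
  rw [hsum] at h1 h2
  obtain ⟨h3, h4⟩ := hNUM p k i hp hk hip
  rw [← hji] at h3 h4
  set a := al p k i G H + om p k G E * H i with ha
  set b' := be p k i G H - om p k G E * (starRingEnd ℂ) (H i) with hb'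
  set Q := cc (2 * p) k * (2 * p).choose i with hQ
  have hA0 : (0 : ℝ) < k + i := by positivity
  have hB0 : (0 : ℝ) < 2 * p + k - i := by linarith
  have e1 : ‖(2 : ℂ) * ((k : ℂ) + i)‖ = 2 * ((k : ℝ) + i) := by
    have : (2 : ℂ) * ((k : ℂ) + i) = ((2 * ((k : ℝ) + i) : ℝ) : ℂ) := by push_cast; ring
    rw [this, Complex.norm_real, Real.norm_of_nonneg (by positivity)]
  have e2 : ‖(2 : ℂ) * (2 * (p : ℂ) + k - i)‖ = 2 * (2 * (p : ℝ) + k - i) := by
    have : (2 : ℂ) * (2 * (p : ℂ) + k - i) = ((2 * (2 * (p : ℝ) + k - i) : ℝ) : ℂ) := by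
      push_cast; ring
    rw [this, Complex.norm_real, Real.norm_of_nonneg (by positivity)]
  rw [norm_mul, e1] at h1
  rw [norm_mul, e2] at h2
  -- j ‖a‖ ≤ (2p+k-i)/2 AA
  have h5 : (j : ℝ) * ‖a‖ ≤ (2 * p + k - i) / 2 * AA p (p + k) j := by
    have h6 : ‖a‖ ≤ (k : ℝ) * (2 * p + k) / p * Q / (2 * (k + i)) := by
      rw [le_div_iff₀ (by positivity)]
      linarith
    have h7 : (j : ℝ) * ((k : ℝ) * (2 * p + k) / p * Q / (2 * (k + i))) =
        (p + k) * ((k : ℝ) * (2 * p + k) * (p - i) / ((p + k) * p) * Q / (2 * (k + i))) := by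
      rw [hjr]
      field_simp
    calc (j : ℝ) * ‖a‖ ≤ j * ((k : ℝ) * (2 * p + k) / p * Q / (2 * (k + i))) := by gcongr
      _ = (p + k) * ((2 * p + k - i) / (2 * (p + k)) * AA p (p + k) j) := by rw [h7, h3]
      _ = (2 * p + k - i) / 2 * AA p (p + k) j := by field_simp
  have h8 : (j : ℝ) * ‖b'‖ ≤ (k + i) / 2 * AA p (p + k) j := by
    have h6 : ‖b'‖ ≤ (k : ℝ) * (2 * p + k) / p * Q / (2 * (2 * p + k - i)) := by
      rw [le_div_iff₀ (by positivity)]
      linarith
    have h7 : (j : ℝ) * ((k : ℝ) * (2 * p + k) / p * Q / (2 * (2 * p + k - i))) =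
        (p + k) * ((k : ℝ) * (2 * p + k) * (p - i) / ((p + k) * p) * Q / (2 * (2 * p + k - i))) := by
      rw [hjr]
      field_simp
    calc (j : ℝ) * ‖b'‖ ≤ j * ((k : ℝ) * (2 * p + k) / p * Q / (2 * (2 * p + k - i))) := by gcongr
      _ = (p + k) * (((k : ℝ) + i) / (2 * (p + k)) * AA p (p + k) j) := by rw [h7, h4]
      _ = (k + i) / 2 * AA p (p + k) j := by field_simp
  rw [div_mul_eq_mul_div, le_div_iff₀ hj0]
  linarith

theorem GAK (hEXR : EXR_stmt) (hGHI : GHI_stmt) (hREK : REK_stmt) (hSTK : STK_stmt) (hKEZ : KEZ_stmt) (hNUM : NUM_stmt) : GAK_stmt := by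
  intro p k N N' w x v y τ b B G hp hk hatw hatv hb hpos hG hB
  obtain ⟨H, hH⟩ := hEXR (-(2 * p)) (mom w x)
  have hGH := hGHI (2 * p) (mom w x) G H hG hH
  choose t ht0 ht using fun l => hpos (y l) (hatv.2.2 l)
  have hB0 : B 0 = 0 := by
    rw [hB 0, zero_add, sum_range_one, EE, hb.1, range_zero, sum_empty, mul_zero, mul_zero,
      add_zero, zero_mul]
  obtain ⟨u, hu, hform⟩ := hSTK p k N' v t y (EE τ (mom v y) b) B G H hp hk hatv ht0 hB0 hGH hB
    (fun m => by
      rw [hREK p N' v y τ b m hp hatv hb]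
      simp only [ht])
  rw [hform]
  refine norm_sum_le_of_le _ fun j hj => ?_
  have hj1 : 1 ≤ j := (Finset.mem_Icc.mp hj).1
  have hjp : j ≤ p := (Finset.mem_Icc.mp hj).2
  have hbd := GAK_bd hKEZ hNUM p k N N' w x u y G H hp hk hatw hu hG hH j hj1 hjp _ rfl
  refine (norm_sub_le _ _).trans ?_
  rw [norm_mul, norm_mul, Complex.norm_conj, ← add_mul, ← mul_assoc]
  gcongr

end Pool.Agent.GD
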