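import Pool.Agent.helper65.GD.Spec

/-!
# GD IDB: identity 2
-/

set_option autoImplicit false

namespace Pool.Agent.GD

open Finset

theorem IDB_refl (i : ℕ) (f : ℕ → ℂ) : ∑ l ∈ range i, f l = ∑ t ∈ Icc 1 i, f (i - t) := by
  refine Finset.sum_nbij' (fun l => i - l) (fun t => i - t) ?_ ?_ ?_ ?_ ?_
  · intro l hl
    rw [mem_range] at hl
    simp only [mem_Icc]
    omega
  · intro t ht
    rw [mem_Icc] at ht
    simp only [mem_range]
    omega
  · intro l hl
    rw [mem_range] at hl
    show i - (i - l) = l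
    omega
  · intro t ht
    rw [mem_Icc] at ht
    show i - (i - t) = t
    omega
  · intro l hl
    rw [mem_range] at hl
    have h1 : i - (i - l) = l := by omega
    show f l = f (i - (i - l))
    rw [h1]

theorem IDB_inn (s : ℂ) (μ G : ℕ → ℂ) (k b : ℕ) (h : Rec s μ G) :
    s * ∑ a ∈ Icc 1 k, (if b < a then μ (a - b) else 0) * G (k - a) =
      ((k - b : ℕ) : ℂ) * G (k - b) := by
  rw [h.2 (k - b)]
  congr 1
  have h1 := IDB_refl k (fun m => (if b < k - m then μ (k - m - b) else 0) * G m)
  have h2 : ∑ a ∈ Icc 1 k, (if b < a then μ (a - b) else 0) * G (k - a) =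
      ∑ t ∈ Icc 1 k, (fun m => (if b < k - m then μ (k - m - b) else 0) * G m) (k - t) := by
    apply Finset.sum_congr rfl
    intro t ht
    rw [mem_Icc] at ht
    have h3 : k - (k - t) = t := by omega
    show (if b < t then μ (t - b) else 0) * G (k - t) =
      (if b < k - (k - t) then μ (k - (k - t) - b) else 0) * G (k - t)
    rw [h3]
  rw [h2, ← h1]
  symm
  refine Finset.sum_subset_zero_on_sdiff (Finset.range_mono (Nat.sub_le k b)) ?_ ?_
  · intro m hm
    rw [mem_sdiff, mem_range, mem_range] at hm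
    show (if b < k - m then μ (k - m - b) else 0) * G m = 0
    rw [if_neg (by omega), zero_mul]
  · intro m hm
    rw [mem_range] at hm
    show μ (k - b - m) * G m = (if b < k - m then μ (k - m - b) else 0) * G m
    rw [if_pos (by omega)]
    have h3 : k - b - m = k - m - b := by omega
    rw [h3]

theorem IDB_min (i k : ℕ) (f : ℕ → ℂ) (h : ∀ t, k < t → f t = 0) :
    ∑ t ∈ Icc 1 i, f t = ∑ t ∈ Icc 1 (min i k), f t := by
  symm
  apply Finset.sum_subset
  · intro t ht
    rw [mem_Icc] at ht ⊢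
    omega
  · intro t ht ht2
    rw [mem_Icc] at ht ht2
    exact h t (by omega)

theorem IDB : IDB_stmt := by
  intro s μ G H k i hμ hG hH
  have hsplit : ∀ a b : ℕ, (if b ≤ a then μ (a - b) else (starRingEnd ℂ) (μ (b - a))) =
      (if a = b then 1 else 0) + (if b < a then μ (a - b) else 0) +
        (starRingEnd ℂ) (if a < b then μ (b - a) else 0) := by
    intro a b
    rcases lt_trichotomy a b with h | h | h
    · rw [if_neg (by omega), if_neg (by omega), if_neg (by omega), if_pos h]
      simp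
    · subst h
      simp [hμ]
    · rw [if_pos (by omega), if_neg (by omega), if_pos h, if_neg (by omega)]
      simp
  -- reindex
  have h1 : ∑ m ∈ range k, ∑ l ∈ range i,
      (if i - l ≤ k - m then μ ((k - m) - (i - l)) else (starRingEnd ℂ) (μ ((i - l) - (k - m)))) *
        G m * (starRingEnd ℂ) (H l) =
      ∑ a ∈ Icc 1 k, ∑ b ∈ Icc 1 i, ((if a = b then 1 else 0) + (if b < a then μ (a - b) else 0) +
        (starRingEnd ℂ) (if a < b then μ (b - a) else 0)) * G (k - a) *
          (starRingEnd ℂ) (H (i - b)) := by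
    rw [IDB_refl k]
    apply Finset.sum_congr rfl
    intro a ha
    rw [mem_Icc] at ha
    rw [IDB_refl i]
    apply Finset.sum_congr rfl
    intro b hb
    rw [mem_Icc] at hb
    have h2 : k - (k - a) = a := by omega
    have h3 : i - (i - b) = b := by omega
    rw [h2, h3, hsplit]
  have hS1 : ∑ a ∈ Icc 1 k, ∑ b ∈ Icc 1 i, (if a = b then (1 : ℂ) else 0) * G (k - a) *
      (starRingEnd ℂ) (H (i - b)) =
      ∑ t ∈ Icc 1 (min i k), G (k - t) * (starRingEnd ℂ) (H (i - t)) := by
    have h2 : ∀ a ∈ Icc 1 k, ∑ b ∈ Icc 1 i, (if a = b then (1 : ℂ) else 0) * G (k - a) *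
        (starRingEnd ℂ) (H (i - b)) =
        if a ≤ i then G (k - a) * (starRingEnd ℂ) (H (i - a)) else 0 := by
      intro a ha
      rw [mem_Icc] at ha
      by_cases hai : a ≤ i
      · rw [if_pos hai, Finset.sum_eq_single a]
        · rw [if_pos rfl, one_mul]
        · intro b _ hb
          rw [if_neg (fun h => hb h.symm), zero_mul, zero_mul]
        · intro h
          exact absurd (mem_Icc.2 ⟨ha.1, hai⟩) h
      · rw [if_neg hai]
        apply Finset.sum_eq_zero
        intro b hb
        rw [mem_Icc] at hb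
        rw [if_neg (by omega), zero_mul, zero_mul]
    rw [Finset.sum_congr rfl h2, IDB_min k i _ (fun t ht => if_neg (by omega)), min_comm]
    apply Finset.sum_congr rfl
    intro t ht
    rw [mem_Icc] at ht
    rw [if_pos (by omega)]
  have hS2 : (s : ℂ) * ∑ a ∈ Icc 1 k, ∑ b ∈ Icc 1 i, (if b < a then μ (a - b) else 0) *
      G (k - a) * (starRingEnd ℂ) (H (i - b)) =
      ∑ t ∈ Icc 1 (min i k), ((k - t : ℕ) : ℂ) * (G (k - t) * (starRingEnd ℂ) (H (i - t))) := by
    rw [Finset.sum_comm, Finset.mul_sum,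
      ← IDB_min i k (fun t => ((k - t : ℕ) : ℂ) * (G (k - t) * (starRingEnd ℂ) (H (i - t))))]
    · apply Finset.sum_congr rfl
      intro b _
      rw [← Finset.sum_mul, ← mul_assoc, IDB_inn s μ G k b hG, mul_assoc]
    · intro t ht
      have h2 : k - t = 0 := by omega
      rw [h2, Nat.cast_zero, zero_mul]
  have hS3 : (s : ℂ) * ∑ a ∈ Icc 1 k, ∑ b ∈ Icc 1 i,
      (starRingEnd ℂ) (if a < b then μ (b - a) else 0) *
      G (k - a) * (starRingEnd ℂ) (H (i - b)) =
      - ∑ t ∈ Icc 1 (min i k), ((i - t : ℕ) : ℂ) * (G (k - t) * (starRingEnd ℂ) (H (i - t))) := by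
    rw [Finset.mul_sum, min_comm,
      ← IDB_min k i (fun t => ((i - t : ℕ) : ℂ) * (G (k - t) * (starRingEnd ℂ) (H (i - t)))),
      ← Finset.sum_neg_distrib]
    · apply Finset.sum_congr rfl
      intro a _
      have h2 := congrArg (starRingEnd ℂ) (IDB_inn (-s) μ H i a hH)
      rw [map_mul, map_mul, map_neg, Complex.conj_ofReal, map_sum, map_natCast] at h2
      have h3 : ∑ b ∈ Icc 1 i, (starRingEnd ℂ) (if a < b then μ (b - a) else 0) *
          G (k - a) * (starRingEnd ℂ) (H (i - b)) =
          G (k - a) * ∑ b ∈ Icc 1 i, (starRingEnd ℂ) ((if a < b then μ (b - a) else 0) *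
            H (i - b)) := by
        rw [Finset.mul_sum]
        apply Finset.sum_congr rfl
        intro b _
        rw [map_mul]
        ring
      rw [h3]
      have h4 : (s : ℂ) * (G (k - a) * ∑ b ∈ Icc 1 i, (starRingEnd ℂ)
          ((if a < b then μ (b - a) else 0) * H (i - b))) =
          - (G (k - a) * (-(s : ℂ) * ∑ b ∈ Icc 1 i, (starRingEnd ℂ)
            ((if a < b then μ (b - a) else 0) * H (i - b)))) := by ring
      rw [h4, h2]
      ring
    · intro t ht
      have h2 : i - t = 0 := by omega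
      rw [h2, Nat.cast_zero, zero_mul]
  rw [h1]
  have hadd : ∑ a ∈ Icc 1 k, ∑ b ∈ Icc 1 i, ((if a = b then 1 else 0) +
      (if b < a then μ (a - b) else 0) + (starRingEnd ℂ) (if a < b then μ (b - a) else 0)) *
        G (k - a) * (starRingEnd ℂ) (H (i - b)) =
      ∑ a ∈ Icc 1 k, ∑ b ∈ Icc 1 i, (if a = b then (1 : ℂ) else 0) * G (k - a) *
        (starRingEnd ℂ) (H (i - b)) +
      ∑ a ∈ Icc 1 k, ∑ b ∈ Icc 1 i, (if b < a then μ (a - b) else 0) *
        G (k - a) * (starRingEnd ℂ) (H (i - b)) +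
      ∑ a ∈ Icc 1 k, ∑ b ∈ Icc 1 i, (starRingEnd ℂ) (if a < b then μ (b - a) else 0) *
        G (k - a) * (starRingEnd ℂ) (H (i - b)) := by
    rw [← Finset.sum_add_distrib, ← Finset.sum_add_distrib]
    apply Finset.sum_congr rfl
    intro a _
    rw [← Finset.sum_add_distrib, ← Finset.sum_add_distrib]
    apply Finset.sum_congr rfl
    intro b _
    ring
  rw [hadd, mul_add, mul_add, hS2, hS3, hS1, Finset.mul_sum, Finset.mul_sum,
    ← Finset.sum_neg_distrib, ← Finset.sum_add_distrib, ← Finset.sum_add_distrib]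
  apply Finset.sum_congr rfl
  intro t ht
  rw [mem_Icc] at ht
  rw [Nat.cast_sub (by omega : t ≤ k), Nat.cast_sub (by omega : t ≤ i)]
  ring

end Pool.Agent.GD
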