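import Pool.Agent.helper6.GD.M2c

/-! # M2: main term of the model -/

set_option autoImplicit false

namespace GD

open Finset ArithmeticFunction
open Pool.Agent.helper74.TG (ee gb)

theorem M2_V (w N : ℕ) : 0 ≤ ∏ l ∈ Ps w, (1 - (om N l : ℝ) / l) ∧
    ∏ l ∈ Ps w, (1 - (om N l : ℝ) / l) ≤ 1 := by
  have h : ∀ l ∈ Ps w, 0 ≤ 1 - (om N l : ℝ) / l ∧ 1 - (om N l : ℝ) / l ≤ 1 := by
    intro l hl
    have h1 : om N l ≤ l := by
      unfold om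
      exact (card_filter_le _ _).trans (card_range l).le
    have h2 : (0 : ℝ) < l := by exact_mod_cast (M2_Ps_prime hl).pos
    have h3 : (om N l : ℝ) / l ≤ 1 := by
      rw [div_le_one h2]
      exact_mod_cast h1
    have h4 : 0 ≤ (om N l : ℝ) / l := by positivity
    constructor <;> linarith
  exact ⟨prod_nonneg fun l hl => (h l hl).1, prod_le_one (fun l hl => (h l hl).1)
    (fun l hl => (h l hl).2)⟩

/-- the primes in `(w, X]` which are `1` or `7` modulo `8` -/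
def M2_P (w X : ℕ) : Finset ℕ := (Ps X).filter fun l => w < l ∧ (l % 8 = 1 ∨ l % 8 = 7)

theorem M2_point (hRT : RT_stmt) {X w N A : ℕ} {ε θ₁ θ₂ : ℝ} (hw : 2 ≤ w)
    (hN : 1 ≤ N) (hNX : N ≤ X) (hL : 0 ≤ Real.log X ^ A)
    (hM1 : ∀ Ω : ℕ → Finset ℕ, (∀ l ∈ Ps w, Ω l ⊆ range l ∧ #(Ω l) ≤ 6) →
      ∀ d a t : ℕ, 0 < d → t ≤ X → (∀ l ∈ Ps w, Nat.Coprime l d) →
      |(#((Ioc 0 t).filter fun n => n ≡ a [MOD d] ∧ ∀ l ∈ Ps w, n % l ∉ Ω l) : ℝ)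
        - t / d * ∏ l ∈ Ps w, (1 - (#(Ω l) : ℝ) / l)| ≤ X / d / Real.log X ^ A + (X : ℝ) ^ ε)
    (D D' : Finset ℕ) (hD : D ⊆ M2_P w X) (hD' : D' ⊆ M2_P w X)
    (hR : (pr D : ℝ) ≤ (X : ℝ) ^ θ₁) (hR' : (pr D' : ℝ) ≤ (X : ℝ) ^ θ₂) :
    |(M2_T w N D D' : ℝ) - N * (∏ l ∈ Ps w, (1 - (om N l : ℝ) / l)) *
        (2 ^ #D * 2 ^ #D' / ((pr D : ℝ) * pr D'))| ≤
      M2_F X (X / Real.log X ^ A + (X : ℝ) ^ (θ₁ + θ₂ + ε) + (X : ℝ) ^ (θ₁ + θ₂)) (M2_P w X)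
        ((M2_P w X).filter fun l => l ∣ N * (2 * N ^ 2 - 1)) (D, D') := by
  have hX : (0 : ℝ) < X := by exact_mod_cast hN.trans hNX
  have hNX' : (N : ℝ) ≤ X := by exact_mod_cast hNX
  have hDp : ∀ l ∈ D, l.Prime ∧ w < l ∧ (l % 8 = 1 ∨ l % 8 = 7) := fun l hl =>
    ⟨M2_Ps_prime (mem_filter.mp (hD hl)).1, (mem_filter.mp (hD hl)).2⟩
  have hDp' : ∀ l ∈ D', l.Prime ∧ w < l ∧ (l % 8 = 1 ∨ l % 8 = 7) := fun l hl =>
    ⟨M2_Ps_prime (mem_filter.mp (hD' hl)).1, (mem_filter.mp (hD' hl)).2⟩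
  have hpD : (0 : ℝ) < pr D := by exact_mod_cast M2_pr_pos fun l hl => (hDp l hl).1
  have hpD' : (0 : ℝ) < pr D' := by exact_mod_cast M2_pr_pos fun l hl => (hDp' l hl).1
  have hprod : (pr D : ℝ) * pr D' ≤ (X : ℝ) ^ (θ₁ + θ₂) := by
    rw [Real.rpow_add hX]
    exact mul_le_mul hR hR' hpD'.le (Real.rpow_nonneg hX.le _)
  have hpp : 0 < (pr D : ℝ) * pr D' := mul_pos hpD hpD'
  obtain ⟨hV0, hV1⟩ := M2_V w N
  set V := ∏ l ∈ Ps w, (1 - (om N l : ℝ) / l) with hVdef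
  have hs2 : 0 ≤ (X : ℝ) * ∑ l ∈ (M2_P w X).filter (fun l => l ∣ N * (2 * N ^ 2 - 1)),
      (if l ∈ D ∧ l ∈ D' then (2 : ℝ) ^ #(D ∪ D') / (pr (D ∪ D') : ℝ) else 0) :=
    mul_nonneg hX.le (sum_nonneg fun l _ => by split_ifs <;> positivity)
  have hs3 : 0 ≤ (X : ℝ) * ∑ l ∈ M2_P w X, (if l ∈ D ∧ l ∈ D' then
      (2 : ℝ) ^ #D * 2 ^ #D' / ((pr D : ℝ) * pr D') else 0) :=
    mul_nonneg hX.le (sum_nonneg fun l _ => by split_ifs <;> positivity)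
  have hq : 0 ≤ (2 : ℝ) ^ #D * 2 ^ #D' / ((pr D : ℝ) * pr D') := by positivity
  have hx1 : 0 ≤ X / Real.log X ^ A := div_nonneg hX.le hL
  have hx2 : 0 ≤ (X : ℝ) ^ (θ₁ + θ₂ + ε) := Real.rpow_nonneg hX.le _
  have hx3 : 0 ≤ (X : ℝ) ^ (θ₁ + θ₂) := Real.rpow_nonneg hX.le _
  unfold M2_F
  simp only
  by_cases hdis : Disjoint D D'
  · have h1 := M2_T_disj hRT hw hN hNX hM1 D D' hDp hDp' hdis
    refine h1.trans ?_
    have h2 : (2 : ℝ) ^ #D * 2 ^ #D' * (X / ((pr D : ℝ) * pr D') / Real.log X ^ A + (X : ℝ) ^ ε) ≤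
        2 ^ #D * 2 ^ #D' / ((pr D : ℝ) * pr D') *
          (X / Real.log X ^ A + (X : ℝ) ^ (θ₁ + θ₂ + ε)) := by
      have h3 : (X : ℝ) ^ ε ≤ (X : ℝ) ^ (θ₁ + θ₂ + ε) / ((pr D : ℝ) * pr D') := by
        rw [le_div_iff₀ hpp, Real.rpow_add hX (θ₁ + θ₂) ε, mul_comm]
        exact mul_le_mul_of_nonneg_right hprod (Real.rpow_nonneg hX.le _)
      calc (2 : ℝ) ^ #D * 2 ^ #D' * (X / ((pr D : ℝ) * pr D') / Real.log X ^ A + (X : ℝ) ^ ε)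
          ≤ 2 ^ #D * 2 ^ #D' * (X / ((pr D : ℝ) * pr D') / Real.log X ^ A +
            (X : ℝ) ^ (θ₁ + θ₂ + ε) / ((pr D : ℝ) * pr D')) := by gcongr
        _ = _ := by ring
    have h4 := mul_nonneg hq hx3
    have h5 : (2 : ℝ) ^ #D * 2 ^ #D' / ((pr D : ℝ) * pr D') *
          (X / Real.log X ^ A + (X : ℝ) ^ (θ₁ + θ₂ + ε) + (X : ℝ) ^ (θ₁ + θ₂)) =
        (2 : ℝ) ^ #D * 2 ^ #D' / ((pr D : ℝ) * pr D') *
          (X / Real.log X ^ A + (X : ℝ) ^ (θ₁ + θ₂ + ε)) +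
        (2 : ℝ) ^ #D * 2 ^ #D' / ((pr D : ℝ) * pr D') * (X : ℝ) ^ (θ₁ + θ₂) := by ring
    linarith
  · obtain ⟨l₀, hl₀, hl₀'⟩ := not_disjoint_iff.mp hdis
    have hmain0 : 0 ≤ N * V * (2 ^ #D * 2 ^ #D' / ((pr D : ℝ) * pr D')) :=
      mul_nonneg (mul_nonneg (Nat.cast_nonneg N) hV0) hq
    have hmain : N * V * (2 ^ #D * 2 ^ #D' / ((pr D : ℝ) * pr D')) ≤
        X * ∑ l ∈ M2_P w X, (if l ∈ D ∧ l ∈ D' then
          (2 : ℝ) ^ #D * 2 ^ #D' / ((pr D : ℝ) * pr D') else 0) := by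
      have h1 : (2 : ℝ) ^ #D * 2 ^ #D' / ((pr D : ℝ) * pr D') ≤
          ∑ l ∈ M2_P w X, (if l ∈ D ∧ l ∈ D' then
          (2 : ℝ) ^ #D * 2 ^ #D' / ((pr D : ℝ) * pr D') else 0) := by
        have h2 := single_le_sum (f := fun l => if l ∈ D ∧ l ∈ D' then
          (2 : ℝ) ^ #D * 2 ^ #D' / ((pr D : ℝ) * pr D') else 0) (s := M2_P w X)
          (fun l _ => by split_ifs <;> positivity) (hD hl₀)
        simp only [if_pos (show l₀ ∈ D ∧ l₀ ∈ D' from ⟨hl₀, hl₀'⟩)] at h2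
        exact h2
      have h3 : N * V ≤ X := by
        calc (N : ℝ) * V ≤ N * 1 := mul_le_mul_of_nonneg_left hV1 (Nat.cast_nonneg N)
          _ ≤ X := by rw [mul_one]; exact hNX'
      exact mul_le_mul h3 h1 hq hX.le
    have hx : 0 ≤ (2 : ℝ) ^ #D * 2 ^ #D' / ((pr D : ℝ) * pr D') *
        (X / Real.log X ^ A + (X : ℝ) ^ (θ₁ + θ₂ + ε)) := mul_nonneg hq (by linarith)
    have hx4 : (2 : ℝ) ^ #D * 2 ^ #D' / ((pr D : ℝ) * pr D') *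
          (X / Real.log X ^ A + (X : ℝ) ^ (θ₁ + θ₂ + ε) + (X : ℝ) ^ (θ₁ + θ₂)) =
        (2 : ℝ) ^ #D * 2 ^ #D' / ((pr D : ℝ) * pr D') *
          (X / Real.log X ^ A + (X : ℝ) ^ (θ₁ + θ₂ + ε)) +
        (2 : ℝ) ^ #D * 2 ^ #D' / ((pr D : ℝ) * pr D') * (X : ℝ) ^ (θ₁ + θ₂) := by ring
    have hx5 := mul_nonneg hq hx3
    by_cases hT : M2_T w N D D' = 0
    · rw [hT, Nat.cast_zero, zero_sub, abs_neg, abs_of_nonneg hmain0]
      linarith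
    · have hB := M2_T_zero hN (fun l hl => (hDp l hl).1) hT l₀ (mem_inter.mpr ⟨hl₀, hl₀'⟩)
      have hTle := M2_T_le hRT w N D D' (fun l hl => ⟨(hDp l hl).1, (hDp l hl).2.2⟩)
        (fun l hl => ⟨(hDp' l hl).1, (hDp' l hl).2.2⟩)
      have hpU : 0 < (pr (D ∪ D') : ℝ) := by
        exact_mod_cast M2_pr_pos fun l hl => by
          rcases mem_union.mp hl with h | h
          · exact (hDp l h).1
          · exact (hDp' l h).1
      have h1 : (2 : ℝ) ^ #(D ∪ D') / (pr (D ∪ D') : ℝ) ≤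
          ∑ l ∈ (M2_P w X).filter (fun l => l ∣ N * (2 * N ^ 2 - 1)),
            (if l ∈ D ∧ l ∈ D' then (2 : ℝ) ^ #(D ∪ D') / (pr (D ∪ D') : ℝ) else 0) := by
        have h2 := single_le_sum (f := fun l => if l ∈ D ∧ l ∈ D' then
          (2 : ℝ) ^ #(D ∪ D') / (pr (D ∪ D') : ℝ) else 0)
          (s := (M2_P w X).filter (fun l => l ∣ N * (2 * N ^ 2 - 1)))
          (fun l _ => by split_ifs <;> positivity) (mem_filter.mpr ⟨hD hl₀, hB⟩)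
        simp only [if_pos (show l₀ ∈ D ∧ l₀ ∈ D' from ⟨hl₀, hl₀'⟩)] at h2
        exact h2
      have h2 : (2 : ℝ) ^ #(D ∪ D') * ((N : ℝ) / (pr (D ∪ D') : ℝ)) ≤
          X * ∑ l ∈ (M2_P w X).filter (fun l => l ∣ N * (2 * N ^ 2 - 1)),
            (if l ∈ D ∧ l ∈ D' then (2 : ℝ) ^ #(D ∪ D') / (pr (D ∪ D') : ℝ) else 0) := by
        calc (2 : ℝ) ^ #(D ∪ D') * ((N : ℝ) / (pr (D ∪ D') : ℝ)) =
              N * (2 ^ #(D ∪ D') / (pr (D ∪ D') : ℝ)) := by ring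
          _ ≤ _ := mul_le_mul hNX' h1 (by positivity) hX.le
      have h3 : (2 : ℝ) ^ #(D ∪ D') ≤
          2 ^ #D * 2 ^ #D' / ((pr D : ℝ) * pr D') * (X : ℝ) ^ (θ₁ + θ₂) := by
        have h4 : (2 : ℝ) ^ #(D ∪ D') ≤ 2 ^ #D * 2 ^ #D' := by
          rw [← pow_add]
          exact pow_le_pow_right₀ (by norm_num) (card_union_le _ _)
        rw [div_mul_eq_mul_div, le_div_iff₀ hpp]
        exact mul_le_mul h4 hprod hpp.le (by positivity)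
      have hT0 : (0 : ℝ) ≤ M2_T w N D D' := Nat.cast_nonneg _
      have h5 : (M2_T w N D D' : ℝ) ≤ (2 : ℝ) ^ #(D ∪ D') * ((N : ℝ) / (pr (D ∪ D') : ℝ)) +
          2 ^ #(D ∪ D') := by
        calc _ ≤ _ := hTle
          _ = _ := by ring
      rw [abs_le]
      constructor <;> linarith

theorem M2_card_B {X N w : ℕ} (hN : 1 ≤ N) (hNX : N ≤ X) (hL : 1 ≤ Real.log X) :
    (#((M2_P w X).filter fun l => l ∣ N * (2 * N ^ 2 - 1)) : ℝ) ≤ 8 * Real.log X := by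
  set B := (M2_P w X).filter fun l => l ∣ N * (2 * N ^ 2 - 1) with hB
  have hX : (0 : ℝ) < X := by exact_mod_cast hN.trans hNX
  have hp : ∀ l ∈ B, l.Prime := fun l hl => M2_Ps_prime (mem_filter.mp (mem_filter.mp hl).1).1
  have h1 : ∏ l ∈ B, l ∣ N * (2 * N ^ 2 - 1) :=
    Finset.prod_primes_dvd _ (fun l hl => (hp l hl).prime) (fun l hl => (mem_filter.mp hl).2)
  have h3 : 1 ≤ 2 * N ^ 2 := by nlinarith
  have hpos : 0 < N * (2 * N ^ 2 - 1) := by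
    apply Nat.mul_pos hN
    have : 1 < 2 * N ^ 2 := by nlinarith
    omega
  have h2 : 2 ^ #B ≤ ∏ l ∈ B, l := by
    rw [← prod_const]
    exact prod_le_prod' fun l hl => (hp l hl).two_le
  have h4 : 2 ^ #B ≤ 2 * X ^ 3 := by
    calc 2 ^ #B ≤ N * (2 * N ^ 2 - 1) := h2.trans (Nat.le_of_dvd hpos h1)
      _ ≤ N * (2 * N ^ 2) := Nat.mul_le_mul_left _ (Nat.sub_le _ _)
      _ = 2 * N ^ 3 := by ring
      _ ≤ 2 * X ^ 3 := Nat.mul_le_mul_left _ (Nat.pow_le_pow_left hNX 3)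
  have h5 : ((2 : ℝ) ^ #B) ≤ 2 * (X : ℝ) ^ 3 := by exact_mod_cast h4
  have h6 := Real.log_le_log (by positivity) h5
  rw [Real.log_pow, Real.log_mul (by norm_num) (by positivity), Real.log_pow] at h6
  have h7 := Real.log_two_gt_d9
  have h8 := Real.log_two_lt_d9
  push_cast at h6
  have h9 : (#B : ℝ) * 0.6931471803 ≤ 0.6931471808 + 3 * Real.log X := by
    have : (#B : ℝ) * 0.6931471803 ≤ #B * Real.log 2 :=
      mul_le_mul_of_nonneg_left h7.le (Nat.cast_nonneg _)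
    linarith
  nlinarith

theorem M2_log_pow (n : ℕ) (ε : ℝ) (hε : 0 < ε) :
    ∀ᶠ X : ℕ in Filter.atTop, Real.log (X : ℝ) ^ n ≤ (X : ℝ) ^ ε := by
  have h := (isLittleO_log_rpow_rpow_atTop (n : ℝ) hε).bound (show (0 : ℝ) < 1 by norm_num)
  have h2 := tendsto_natCast_atTop_atTop (R := ℝ) |>.eventually h
  have h3 : ∀ᶠ X : ℕ in Filter.atTop, 1 ≤ X := Filter.eventually_ge_atTop 1
  filter_upwards [h2, h3] with X hX hX1
  have hX1' : (1 : ℝ) ≤ X := by exact_mod_cast hX1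
  rw [Real.norm_eq_abs, Real.norm_eq_abs, one_mul, Real.rpow_natCast,
    abs_of_nonneg (pow_nonneg (Real.log_nonneg hX1') n),
    abs_of_nonneg (Real.rpow_nonneg (by linarith) ε)] at hX
  exact hX

theorem M2 (hRT : RT_stmt) (hM1s : M1_stmt) (hCW : CW_stmt) : M2_stmt := by
  intro θ₁ θ₂ hθ₁ hθ₂ hθ K A
  obtain ⟨C₀', hC₀', hcw'⟩ := hCW
  set C₀ := max C₀' 1 with hC₀
  have hC₀1 : 1 ≤ C₀ := le_max_right _ _
  set K' := K + 1 with hK'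
  set E := 2 + 2 * K + (2 * (2 * K') + 8 * K' ^ 2) + 1 with hE
  set A' := A + E + 1 with hA'
  set ε := (1 - θ₁ - θ₂) / 2 with hε
  have hεpos : 0 < ε := by rw [hε]; linarith
  refine ⟨A' + 1, fun C hC => ?_⟩
  obtain ⟨X₁, hX₁⟩ := hM1s A' C ε hεpos
  set G₀ : ℝ := 3 + 16 * (8 * K' ^ 2 : ℕ) + 2 * (2 * K' : ℕ) ^ 2 with hG₀
  set G : ℝ := G₀ * C₀ ^ (2 + (2 * (2 * K') + 8 * K' ^ 2)) with hG
  have hlog : Filter.Tendsto (fun X : ℕ => Real.log (X : ℝ)) Filter.atTop Filter.atTop :=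
    Real.tendsto_log_atTop.comp tendsto_natCast_atTop_atTop
  have hev : ∀ᶠ X : ℕ in Filter.atTop, X₁ ≤ X ∧ 4 ≤ Real.log X ∧ G ≤ Real.log X ∧
      Real.log X ^ A' ≤ (X : ℝ) ^ ε ∧ Real.log X ^ C ≤ (X : ℝ) ^ (1 : ℝ) := by
    filter_upwards [Filter.eventually_ge_atTop X₁, hlog.eventually_ge_atTop 4,
      hlog.eventually_ge_atTop G, M2_log_pow A' ε hεpos, M2_log_pow C 1 one_pos] with X h1 h2 h3 h4 h5
    exact ⟨h1, h2, h3, h4, h5⟩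
  obtain ⟨X₀, hX₀⟩ := Filter.eventually_atTop.mp hev
  refine ⟨X₀, fun X hX Q₁ Q₂ hQ₁ hQ₂ ξ₁ ξ₂ hξ₁ hξ₂ N hN => ?_⟩
  obtain ⟨hXX₁, hL4, hLG, hLA, hLC⟩ := hX₀ X hX
  rw [mem_Icc] at hN
  obtain ⟨hN1, hNX⟩ := hN
  have hXnat : 1 ≤ X := hN1.trans hNX
  have hXpos : (0 : ℝ) < X := by exact_mod_cast hXnat
  have hX1 : (1 : ℝ) ≤ X := by exact_mod_cast hXnat
  set L := Real.log (X : ℝ) with hLdef
  set w := wX X C with hwdef
  have hL1 : 1 ≤ L := by linarith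
  have hLC' : L ^ C ≤ X := by rwa [Real.rpow_one] at hLC
  have hLCge : L ≤ L ^ C := by
    calc L = L ^ 1 := (pow_one L).symm
      _ ≤ L ^ C := pow_le_pow_right₀ hL1 (by omega)
  have hwle : (w : ℝ) ≤ L ^ C := Nat.floor_le (by positivity)
  have hwge : L ^ C / 2 ≤ w := by
    have : L ^ C < w + 1 := Nat.lt_floor_add_one _
    linarith
  have hw2 : 2 ≤ w := by
    have h1 : (2 : ℝ) ≤ w := by linarith
    exact_mod_cast h1
  have hwpos : (0 : ℝ) < w := by exact_mod_cast (by omega : 0 < w)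
  have hwX : (w : ℝ) ≤ X := hwle.trans hLC'
  -- bounds for the products
  have hcwX : cw X ≤ C₀ * L := by
    have h2X : 2 ≤ X := by
      have : (2 : ℝ) ≤ X := by
        calc (2 : ℝ) ≤ w := by exact_mod_cast hw2
          _ ≤ X := hwX
      exact_mod_cast this
    calc cw X ≤ C₀' * Real.log X := (hcw' X h2X).2
      _ ≤ C₀ * L := mul_le_mul_of_nonneg_right (le_max_left _ _) (by linarith)
  have hcww : cw w ≤ C₀ * L := by
    calc cw w ≤ C₀' * Real.log w := (hcw' w hw2).2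
      _ ≤ C₀ * L := mul_le_mul (le_max_left _ _) (Real.log_le_log hwpos hwX)
          (Real.log_nonneg (by exact_mod_cast (by omega : 1 ≤ w))) (by linarith)
  have hcwX0 : 1 ≤ cw X := M2_one_le_cw X
  have hcww0 : 1 ≤ cw w := M2_one_le_cw w
  have hCL : 1 ≤ C₀ * L := one_le_mul_of_one_le_of_one_le hC₀1 hL1
  -- the difference as a double sum
  set V := ∏ l ∈ Ps w, (1 - (om N l : ℝ) / l) with hVdef
  let g : Finset ℕ × Finset ℕ → ℝ := fun D => ξ₁ D.1 * ξ₂ D.2 *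
    ((M2_T w N D.1 D.2 : ℝ) - N * V * (2 ^ #D.1 * 2 ^ #D.2 / ((pr D.1 : ℝ) * pr D.2)))
  have hdiff : cv N (fun n => Lw w n * sh w n * Fv Q₁ ξ₁ n)
      (fun n => Lw w n * sh w n * Fv Q₂ ξ₂ n) - N * VN w N * Ev Q₁ ξ₁ * Ev Q₂ ξ₂ =
      cw w ^ 2 * ∑ D ∈ Q₁.powerset ×ˢ Q₂.powerset, g D := by
    rw [M2_cv]
    have h1 : (N : ℝ) * VN w N * Ev Q₁ ξ₁ * Ev Q₂ ξ₂ = cw w ^ 2 * ∑ D ∈ Q₁.powerset ×ˢ Q₂.powerset,
        ξ₁ D.1 * ξ₂ D.2 * (N * V * (2 ^ #D.1 * 2 ^ #D.2 / ((pr D.1 : ℝ) * pr D.2))) := by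
      have h2 : (N : ℝ) * VN w N * Ev Q₁ ξ₁ * Ev Q₂ ξ₂ =
          cw w ^ 2 * (N * V * (Ev Q₁ ξ₁ * Ev Q₂ ξ₂)) := by
        unfold VN
        ring
      rw [h2]
      congr 1
      unfold Ev
      rw [sum_mul_sum, ← sum_product', mul_sum]
      refine sum_congr rfl fun D _ => ?_
      rw [← div_mul_div_comm]
      ring
    rw [h1, ← mul_sub, ← sum_product', ← sum_sub_distrib]
    congr 1
    refine sum_congr rfl fun D _ => ?_
    simp only [g]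
    ring
  -- pointwise bound
  set P := M2_P w X with hPdef
  set B := P.filter fun l => l ∣ N * (2 * N ^ 2 - 1) with hBdef
  set Y : ℝ := X / L ^ A' + (X : ℝ) ^ (θ₁ + θ₂ + ε) + (X : ℝ) ^ (θ₁ + θ₂) with hYdef
  have hY0 : 0 ≤ Y := by
    have h1 : 0 ≤ (X : ℝ) ^ (θ₁ + θ₂ + ε) := Real.rpow_nonneg hXpos.le _
    have h2 : 0 ≤ (X : ℝ) ^ (θ₁ + θ₂) := Real.rpow_nonneg hXpos.le _
    have h3 : 0 ≤ X / L ^ A' := by positivity
    linarith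
  have hsub : ∀ (Q : Finset ℕ) (ξ : Finset ℕ → ℝ) (θ : ℝ), θ ≤ 1 →
      (∀ l ∈ Q, l.Prime ∧ w < l ∧ (l % 8 = 1 ∨ l % 8 = 7)) → Cf Q ξ K (L ^ K) ((X : ℝ) ^ θ) →
      ∀ D ∈ Q.powerset, ξ D ≠ 0 → D ⊆ P := by
    intro Q ξ θ hθ1 hQ hξ D hD hne l hl
    have hDQ := mem_powerset.mp hD
    have h1 := (hξ D hD).2 hne
    have h2 : l ≤ pr D := by
      refine Nat.le_of_dvd (M2_pr_pos fun l hl => (hQ l (hDQ hl)).1) (dvd_prod_of_mem _ hl)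
    have h3 : (l : ℝ) ≤ X := by
      calc (l : ℝ) ≤ pr D := by exact_mod_cast h2
        _ ≤ (X : ℝ) ^ θ := h1
        _ ≤ (X : ℝ) ^ (1 : ℝ) := Real.rpow_le_rpow_of_exponent_le hX1 hθ1
        _ = X := Real.rpow_one _
    have h4 : l ≤ X := by exact_mod_cast h3
    obtain ⟨hp, hlw, hl8⟩ := hQ l (hDQ hl)
    exact mem_filter.mpr ⟨mem_filter.mpr ⟨mem_Icc.mpr ⟨hp.one_lt.le, h4⟩, hp⟩, hlw, hl8⟩
  have hξb : ∀ (Q : Finset ℕ) (ξ : Finset ℕ → ℝ) (R : ℝ), Cf Q ξ K (L ^ K) R →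
      ∀ D ∈ Q.powerset, |ξ D| ≤ (K' : ℝ) ^ #D * L ^ K := by
    intro Q ξ R hξ D hD
    refine (hξ D hD).1.trans (mul_le_mul_of_nonneg_right ?_ (by positivity))
    refine pow_le_pow_left₀ (Nat.cast_nonneg K) ?_ _
    rw [hK']
    push_cast
    linarith
  have hpoint : ∀ D ∈ Q₁.powerset ×ˢ Q₂.powerset, g D ≠ 0 → D ∈ P.powerset ×ˢ P.powerset ∧
      |g D| ≤ L ^ (2 * K) * ((K' : ℝ) ^ #D.1 * (K' : ℝ) ^ #D.2 * M2_F X Y P B D) := by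
    intro D hD hne
    rw [mem_product] at hD
    have hne1 : ξ₁ D.1 ≠ 0 := fun h => hne (by simp only [g]; rw [h]; ring)
    have hne2 : ξ₂ D.2 ≠ 0 := fun h => hne (by simp only [g]; rw [h]; ring)
    have hs1 := hsub Q₁ ξ₁ θ₁ (by linarith) hQ₁ hξ₁ D.1 hD.1 hne1
    have hs2 := hsub Q₂ ξ₂ θ₂ (by linarith) hQ₂ hξ₂ D.2 hD.2 hne2
    refine ⟨mem_product.mpr ⟨mem_powerset.mpr hs1, mem_powerset.mpr hs2⟩, ?_⟩
    have h1 := M2_point hRT (X := X) (w := w) (N := N) (A := A') (ε := ε) (θ₁ := θ₁) (θ₂ := θ₂)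
      hw2 hN1 hNX (by positivity) (hX₁ X hXX₁ (Ps w) (Subset.refl _)) D.1 D.2 hs1 hs2
      ((hξ₁ D.1 hD.1).2 hne1) ((hξ₂ D.2 hD.2).2 hne2)
    have h2 := hξb Q₁ ξ₁ _ hξ₁ D.1 hD.1
    have h3 := hξb Q₂ ξ₂ _ hξ₂ D.2 hD.2
    have h4 : |ξ₁ D.1 * ξ₂ D.2| ≤ ((K' : ℝ) ^ #D.1 * L ^ K) * ((K' : ℝ) ^ #D.2 * L ^ K) := by
      rw [abs_mul]
      exact mul_le_mul h2 h3 (abs_nonneg _) (by positivity)
    calc |g D| = |ξ₁ D.1 * ξ₂ D.2| * |(M2_T w N D.1 D.2 : ℝ) -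
          N * V * (2 ^ #D.1 * 2 ^ #D.2 / ((pr D.1 : ℝ) * pr D.2))| := abs_mul _ _
      _ ≤ (((K' : ℝ) ^ #D.1 * L ^ K) * ((K' : ℝ) ^ #D.2 * L ^ K)) * M2_F X Y P B D :=
          mul_le_mul h4 h1 (abs_nonneg _) (by positivity)
      _ = _ := by
          rw [two_mul, pow_add]
          ring
  have hFnn : ∀ D, 0 ≤ M2_F X Y P B D := fun D => M2_F_nonneg hXpos.le hY0 P B D
  have hsum : |∑ D ∈ Q₁.powerset ×ˢ Q₂.powerset, g D| ≤
      L ^ (2 * K) * ∑ D ∈ P.powerset ×ˢ P.powerset,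
        (K' : ℝ) ^ #D.1 * (K' : ℝ) ^ #D.2 * M2_F X Y P B D := by
    rw [← sum_filter_ne_zero, mul_sum]
    refine (abs_sum_le_sum_abs _ _).trans ?_
    calc ∑ D ∈ (Q₁.powerset ×ˢ Q₂.powerset).filter (fun D => g D ≠ 0), |g D|
        ≤ ∑ D ∈ (Q₁.powerset ×ˢ Q₂.powerset).filter (fun D => g D ≠ 0),
          L ^ (2 * K) * ((K' : ℝ) ^ #D.1 * (K' : ℝ) ^ #D.2 * M2_F X Y P B D) :=
          sum_le_sum fun D hD => (hpoint D (mem_filter.mp hD).1 (mem_filter.mp hD).2).2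
      _ ≤ _ := sum_le_sum_of_subset_of_nonneg
          (fun D hD => (hpoint D (mem_filter.mp hD).1 (mem_filter.mp hD).2).1)
          (fun D _ _ => mul_nonneg (by positivity) (mul_nonneg (by positivity) (hFnn D)))
  have hPsub : P ⊆ Ps X := filter_subset _ _
  have hPw : ∀ l ∈ P, w < l := fun l hl => (mem_filter.mp hl).2.1
  have hF := M2_sum_F (X := X) (w := w) (K := K') (Y := Y) (by omega) (by omega) hY0 hPsub hPw
    (filter_subset (fun l => l ∣ N * (2 * N ^ 2 - 1)) P)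
  have hBcard : (#B : ℝ) ≤ 8 * L := M2_card_B hN1 hNX hL1
  -- the final estimate
  have hLA0 : 0 < L ^ A' := by positivity
  set Z : ℝ := X / L ^ A' with hZ
  have hZ0 : 0 ≤ Z := by positivity
  have hZL : Z ≤ L * Z := le_mul_of_one_le_left hZ0 hL1
  have hYZ : Y ≤ 3 * Z := by
    have h1 : (X : ℝ) ^ (θ₁ + θ₂ + ε) ≤ Z := by
      have h2 : θ₁ + θ₂ + ε = 1 - ε := by rw [hε]; ring
      rw [h2, Real.rpow_sub hXpos, Real.rpow_one]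
      exact div_le_div_of_nonneg_left hXpos.le hLA0 hLA
    have h3 : (X : ℝ) ^ (θ₁ + θ₂) ≤ (X : ℝ) ^ (θ₁ + θ₂ + ε) :=
      Real.rpow_le_rpow_of_exponent_le hX1 (by linarith)
    rw [hYdef]
    linarith
  have hXw : (X : ℝ) / w ≤ 2 * Z := by
    have h1 : L ^ A' ≤ L ^ C := pow_le_pow_right₀ hL1 (by omega)
    rw [hZ, div_le_iff₀ hwpos]
    have h2 : L ^ A' / 2 ≤ w := by linarith
    calc (X : ℝ) = 2 * (X / L ^ A') * (L ^ A' / 2) := by field_simp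
      _ ≤ 2 * (X / L ^ A') * w := mul_le_mul_of_nonneg_left h2 (by positivity)
  set m := 2 * (2 * K') + 8 * K' ^ 2 with hm
  have hpw : ∀ j, j ≤ m → cw X ^ j ≤ (C₀ * L) ^ m := by
    intro j hj
    calc cw X ^ j ≤ (C₀ * L) ^ j := pow_le_pow_left₀ (by linarith) hcwX j
      _ ≤ (C₀ * L) ^ m := pow_le_pow_right₀ hCL hj
  have hp1 : (cw X ^ (2 * K')) ^ 2 ≤ (C₀ * L) ^ m := by
    rw [← pow_mul]
    exact hpw _ (by rw [hm]; omega)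
  have hp2 : cw X ^ (8 * K' ^ 2) ≤ (C₀ * L) ^ m := hpw _ (by rw [hm]; omega)
  have hW0 : 0 ≤ (C₀ * L) ^ m := by positivity
  have hF2 : ∑ D ∈ P.powerset ×ˢ P.powerset, (K' : ℝ) ^ #D.1 * (K' : ℝ) ^ #D.2 * M2_F X Y P B D ≤
      G₀ * ((C₀ * L) ^ m * (L * Z)) := by
    refine hF.trans ?_
    have t1 : Y * (cw X ^ (2 * K')) ^ 2 ≤ 3 * ((C₀ * L) ^ m * (L * Z)) := by
      calc Y * (cw X ^ (2 * K')) ^ 2 ≤ (3 * Z) * (C₀ * L) ^ m :=
            mul_le_mul hYZ hp1 (by positivity) (by positivity)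
        _ ≤ (3 * (L * Z)) * (C₀ * L) ^ m := by
            refine mul_le_mul_of_nonneg_right ?_ hW0
            linarith
        _ = _ := by ring
    have t2 : (X : ℝ) * (#B * ((8 * K' ^ 2 : ℕ) / (w : ℝ) * cw X ^ (8 * K' ^ 2))) ≤
        16 * (8 * K' ^ 2 : ℕ) * ((C₀ * L) ^ m * (L * Z)) := by
      calc (X : ℝ) * (#B * ((8 * K' ^ 2 : ℕ) / (w : ℝ) * cw X ^ (8 * K' ^ 2)))
          = #B * ((X : ℝ) / w) * ((8 * K' ^ 2 : ℕ) * cw X ^ (8 * K' ^ 2)) := by ring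
        _ ≤ (8 * L) * (2 * Z) * ((8 * K' ^ 2 : ℕ) * (C₀ * L) ^ m) := by
            refine mul_le_mul (mul_le_mul hBcard hXw (by positivity) (by positivity))
              (mul_le_mul_of_nonneg_left hp2 (by positivity)) (by positivity) (by positivity)
        _ = _ := by ring
    have t3 : (X : ℝ) * ((2 * K' : ℕ) ^ 2 / (w : ℝ) * (cw X ^ (2 * K')) ^ 2) ≤
        2 * (2 * K' : ℕ) ^ 2 * ((C₀ * L) ^ m * (L * Z)) := by
      calc (X : ℝ) * ((2 * K' : ℕ) ^ 2 / (w : ℝ) * (cw X ^ (2 * K')) ^ 2)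
          = ((X : ℝ) / w) * ((2 * K' : ℕ) ^ 2 * (cw X ^ (2 * K')) ^ 2) := by ring
        _ ≤ (2 * Z) * ((2 * K' : ℕ) ^ 2 * (C₀ * L) ^ m) := by
            refine mul_le_mul hXw (mul_le_mul_of_nonneg_left hp1 (by positivity)) (by positivity)
              (by positivity)
        _ ≤ (2 * (L * Z)) * ((2 * K' : ℕ) ^ 2 * (C₀ * L) ^ m) := by
            refine mul_le_mul_of_nonneg_right ?_ (by positivity)
            linarith
        _ = _ := by ring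
    calc _ ≤ 3 * ((C₀ * L) ^ m * (L * Z)) + 16 * (8 * K' ^ 2 : ℕ) * ((C₀ * L) ^ m * (L * Z)) +
          2 * (2 * K' : ℕ) ^ 2 * ((C₀ * L) ^ m * (L * Z)) := add_le_add (add_le_add t1 t2) t3
      _ = _ := by rw [hG₀]; ring
  have hG₀0 : 0 ≤ G₀ := by rw [hG₀]; positivity
  rw [hdiff, abs_mul, abs_of_nonneg (by positivity : (0 : ℝ) ≤ cw w ^ 2)]
  have hc2 : cw w ^ 2 ≤ (C₀ * L) ^ 2 := pow_le_pow_left₀ (by linarith) hcww 2
  have hfin : cw w ^ 2 * |∑ D ∈ Q₁.powerset ×ˢ Q₂.powerset, g D| ≤ G * L ^ E * Z := by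
    calc cw w ^ 2 * |∑ D ∈ Q₁.powerset ×ˢ Q₂.powerset, g D|
        ≤ (C₀ * L) ^ 2 * (L ^ (2 * K) * (G₀ * ((C₀ * L) ^ m * (L * Z)))) := by
          refine mul_le_mul hc2 (hsum.trans (mul_le_mul_of_nonneg_left hF2 (by positivity)))
            (abs_nonneg _) (by positivity)
      _ = G * L ^ E * Z := by
          have e1 : E = 2 + 2 * K + m + 1 := rfl
          rw [hG, e1, mul_pow, mul_pow, pow_add C₀ 2 m, pow_add L (2 + 2 * K + m) 1,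
            pow_add L (2 + 2 * K) m, pow_add L 2 (2 * K), pow_one]
          ring
  refine hfin.trans ?_
  have e2 : Z = X / (L ^ A * L ^ E * L) := by
    rw [hZ, hA', pow_add, pow_add, pow_one]
  have hLE : 0 < L ^ E := by positivity
  have hLA1 : 0 < L ^ A := by positivity
  have hL0 : 0 < L := by linarith
  have e3 : G * L ^ E * Z = (G / L) * (X / L ^ A) := by
    rw [e2]
    field_simp
  rw [e3]
  have hGL : G / L ≤ 1 := by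
    rw [div_le_one hL0]
    exact hLG
  calc G / L * (X / L ^ A) ≤ 1 * (X / L ^ A) := mul_le_mul_of_nonneg_right hGL (by positivity)
    _ = X / L ^ A := one_mul _

end GD
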