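import Pool.Agent.helper8.GD.Spec

/-! # M2, part a: residue classes -/

set_option autoImplicit false

namespace GD

open Finset ArithmeticFunction
open Pool.Agent.helper74.TG (ee gb)

/-- the excluded classes -/
def M2_Om (N l : ℕ) : Finset ℕ :=
  (range l).filter fun n => n ≡ 0 [MOD l] ∨ n ≡ N [MOD l] ∨ dv l n ∨ dv l (N + (l - 1) * n)

theorem M2_dv_congr {q a b : ℕ} (h : a ≡ b [MOD q]) : dv q a ↔ dv q b := by
  have h1 : 8 * a ^ 2 ≡ 8 * b ^ 2 [MOD q] := (h.pow 2).mul_left 8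
  exact ⟨fun h2 => h1.symm.trans h2, fun h2 => h1.trans h2⟩

theorem M2_sub_modEq {q N m : ℕ} (hq : 0 < q) (hm : m ≤ N) : N - m ≡ N + (q - 1) * m [MOD q] := by
  have h : N + (q - 1) * m = (N - m) + q * m := by
    obtain ⟨r, rfl⟩ := Nat.exists_eq_add_of_le hm
    obtain ⟨s, rfl⟩ : ∃ s, q = s + 1 := ⟨q - 1, by omega⟩
    have e1 : m + r - m = r := by omega
    have e2 : s + 1 - 1 = s := by omega
    rw [e1, e2]
    ring
  rw [h]
  have : (N - m) + q * m ≡ (N - m) + 0 [MOD q] :=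
    Nat.ModEq.add_left _ (Nat.modEq_zero_iff_dvd.mpr (dvd_mul_right _ _))
  exact this.symm

theorem M2_mem_Om {N l m : ℕ} (hl : 0 < l) (hm : m ≤ N) :
    m % l ∈ M2_Om N l ↔ (l ∣ m ∨ l ∣ N - m ∨ dv l m ∨ dv l (N - m)) := by
  have hmod : m % l ≡ m [MOD l] := Nat.mod_modEq m l
  unfold M2_Om
  rw [mem_filter, mem_range]
  have e1 : m % l ≡ 0 [MOD l] ↔ l ∣ m := by
    rw [← Nat.modEq_zero_iff_dvd]
    exact ⟨fun h => hmod.symm.trans h, fun h => hmod.trans h⟩
  have e2 : m % l ≡ N [MOD l] ↔ l ∣ N - m := by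
    rw [← Nat.modEq_iff_dvd' hm]
    exact ⟨fun h => hmod.symm.trans h, fun h => hmod.trans h⟩
  have e3 : dv l (m % l) ↔ dv l m := M2_dv_congr hmod
  have e4 : dv l (N + (l - 1) * (m % l)) ↔ dv l (N - m) := by
    refine (M2_dv_congr ((Nat.ModEq.mul_left (l - 1) hmod).add_left N)).trans ?_
    exact (M2_dv_congr (M2_sub_modEq hl hm)).symm
  rw [e1, e2, e3, e4]
  exact and_iff_right (Nat.mod_lt _ hl)

theorem M2_pr_pos {D : Finset ℕ} (hD : ∀ l ∈ D, l.Prime) : 0 < pr D :=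
  Finset.prod_pos fun l hl => (hD l hl).pos

theorem M2_coprime {D D' : Finset ℕ} (hD : ∀ l ∈ D, l.Prime) (hD' : ∀ l ∈ D', l.Prime)
    (hdis : Disjoint D D') : Nat.Coprime (pr D) (pr D') := by
  unfold pr
  refine Nat.Coprime.prod_left fun l hl => Nat.Coprime.prod_right fun l' hl' => ?_
  rw [Nat.coprime_primes (hD l hl) (hD' l' hl')]
  rintro rfl
  exact (Finset.disjoint_left.mp hdis hl) hl'

theorem M2_crt (hRT : RT_stmt) (D D' : Finset ℕ) (hD : ∀ l ∈ D, l.Prime ∧ (l % 8 = 1 ∨ l % 8 = 7))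
    (hD' : ∀ l ∈ D', l.Prime ∧ (l % 8 = 1 ∨ l % 8 = 7)) (hdis : Disjoint D D') (N : ℕ) :
    ∃ R ⊆ range (pr D * pr D'), #R = 2 ^ #D * 2 ^ #D' ∧
      ∀ m ≤ N, (dv (pr D) m ∧ dv (pr D') (N - m)) ↔ m % (pr D * pr D') ∈ R := by
  have hq1 : 0 < pr D := M2_pr_pos fun l hl => (hD l hl).1
  have hq2 : 0 < pr D' := M2_pr_pos fun l hl => (hD' l hl).1
  have hcop : Nat.Coprime (pr D) (pr D') :=
    M2_coprime (fun l hl => (hD l hl).1) (fun l hl => (hD' l hl).1) hdis
  have hc1 := hRT.2.2.1 D hD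
  have hc2 := hRT.2.2.1 D' hD'
  generalize pr D = q₁ at *
  generalize pr D' = q₂ at *
  have hq : 0 < q₁ * q₂ := Nat.mul_pos hq1 hq2
  refine ⟨(range (q₁ * q₂)).filter (fun a => dv q₁ a ∧ dv q₂ (N + (q₂ - 1) * a)),
    filter_subset _ _, ?_, ?_⟩
  · rw [← hc1, ← hc2, ← card_product]
    have hneg : ∀ a b : ℕ, N + (q₂ - 1) * a ≡ N + (q₂ - 1) * b [MOD q₂] → a ≡ b [MOD q₂] := by
      intro a b h
      have h1 : (q₂ - 1) * a ≡ (q₂ - 1) * b [MOD q₂] := Nat.ModEq.add_left_cancel' N h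
      have hc : Nat.gcd q₂ (q₂ - 1) = 1 := by
        have : Nat.Coprime (q₂ - 1) (q₂ - 1 + 1) := by simp
        rw [show q₂ - 1 + 1 = q₂ by omega] at this
        exact this.symm
      exact Nat.ModEq.cancel_left_of_coprime hc h1
    refine Finset.card_bij (fun a _ => (a % q₁, (N + (q₂ - 1) * a) % q₂)) ?_ ?_ ?_
    · intro a ha
      rw [mem_filter] at ha
      rw [mem_product, mem_filter, mem_filter, mem_range, mem_range]
      exact ⟨⟨Nat.mod_lt _ hq1, (M2_dv_congr (Nat.mod_modEq _ _)).mpr ha.2.1⟩,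
        Nat.mod_lt _ hq2, (M2_dv_congr (Nat.mod_modEq _ _)).mpr ha.2.2⟩
    · intro a ha b hb hab
      rw [mem_filter, mem_range] at ha hb
      obtain ⟨h1, h2⟩ := Prod.mk.inj hab
      have h3 : a ≡ b [MOD q₂] := hneg a b h2
      have h4 : a ≡ b [MOD q₁ * q₂] := (Nat.modEq_and_modEq_iff_modEq_mul hcop).mp ⟨h1, h3⟩
      exact Nat.ModEq.eq_of_lt_of_lt h4 ha.1 hb.1
    · rintro ⟨b₁, b₂⟩ hb
      rw [mem_product, mem_filter, mem_filter, mem_range, mem_range] at hb
      obtain ⟨⟨hb1, hb1'⟩, hb2, hb2'⟩ := hb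
      obtain ⟨a, ha1, ha2⟩ := Nat.chineseRemainder hcop b₁ (N + (q₂ - 1) * b₂)
      have hlt : a % (q₁ * q₂) < q₁ * q₂ := Nat.mod_lt _ hq
      have e1 : a % (q₁ * q₂) ≡ b₁ [MOD q₁] :=
        ((Nat.mod_modEq a (q₁ * q₂)).of_mul_right q₂).trans ha1
      have e2 : a % (q₁ * q₂) ≡ N + (q₂ - 1) * b₂ [MOD q₂] :=
        ((Nat.mod_modEq a (q₁ * q₂)).of_mul_left q₁).trans ha2
      have e3 : N + (q₂ - 1) * (a % (q₁ * q₂)) ≡ b₂ [MOD q₂] := by
        have h1 : N + (q₂ - 1) * (a % (q₁ * q₂)) ≡ N + (q₂ - 1) * (N + (q₂ - 1) * b₂) [MOD q₂] :=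
          (e2.mul_left (q₂ - 1)).add_left N
        refine h1.trans ?_
        obtain ⟨s, rfl⟩ : ∃ s, q₂ = s + 1 := ⟨q₂ - 1, by omega⟩
        have e : N + (s + 1 - 1) * (N + (s + 1 - 1) * b₂) = b₂ + (s + 1) * (N + (s - 1) * b₂) ∨
            s = 0 := by
          rcases Nat.eq_zero_or_pos s with h | h
          · exact Or.inr h
          · left
            obtain ⟨r, rfl⟩ : ∃ r, s = r + 1 := ⟨s - 1, by omega⟩
            have e1 : r + 1 + 1 - 1 = r + 1 := by omega
            have e2 : r + 1 - 1 = r := by omega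
            rw [e1, e2]
            ring
        rcases e with e | e
        · rw [e]
          have : b₂ + (s + 1) * (N + (s - 1) * b₂) ≡ b₂ + 0 [MOD (s + 1)] :=
            Nat.ModEq.add_left _ (Nat.modEq_zero_iff_dvd.mpr (dvd_mul_right _ _))
          exact this
        · subst e
          exact Nat.modEq_one
      refine ⟨a % (q₁ * q₂), ?_, ?_⟩
      · rw [mem_filter, mem_range]
        exact ⟨hlt, (M2_dv_congr e1).mpr hb1', (M2_dv_congr e3).mpr hb2'⟩
      · have f1 : a % (q₁ * q₂) % q₁ = b₁ := by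
          have : a % (q₁ * q₂) % q₁ = b₁ % q₁ := e1
          rw [this, Nat.mod_eq_of_lt hb1]
        have f2 : (N + (q₂ - 1) * (a % (q₁ * q₂))) % q₂ = b₂ := by
          have : (N + (q₂ - 1) * (a % (q₁ * q₂))) % q₂ = b₂ % q₂ := e3
          rw [this, Nat.mod_eq_of_lt hb2]
        rw [f1, f2]
  · intro m hm
    rw [mem_filter, mem_range]
    have hmod : m % (q₁ * q₂) ≡ m [MOD q₁ * q₂] := Nat.mod_modEq _ _
    rw [M2_dv_congr (hmod.of_mul_right q₂),
      M2_dv_congr (((hmod.of_mul_left q₁).mul_left (q₂ - 1)).add_left N),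
      ← M2_dv_congr (M2_sub_modEq hq2 hm)]
    exact (and_iff_right (Nat.mod_lt _ hq)).symm

/-- number of integers in residue classes -/
theorem M2_count {d N : ℕ} (hd : 0 < d) (R : Finset ℕ) :
    (#((Ioc 0 N).filter fun m => m % d ∈ R) : ℝ) ≤ #R * ((N : ℝ) / d + 1) := by
  have h1 : #((Ioc 0 N).filter fun m => m % d ∈ R) ≤ #(R ×ˢ range (N / d + 1)) := by
    refine Finset.card_le_card_of_injOn (fun m => (m % d, m / d)) ?_ ?_
    · intro m hm
      rw [mem_coe, mem_filter, mem_Ioc] at hm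
      rw [mem_coe, mem_product, mem_range]
      exact ⟨hm.2, Nat.lt_succ_of_le (Nat.div_le_div_right hm.1.2)⟩
    · intro m _ m' _ h
      obtain ⟨h1, h2⟩ := Prod.mk.inj h
      rw [← Nat.div_add_mod m d, ← Nat.div_add_mod m' d, h1, h2]
  rw [card_product, card_range] at h1
  calc (#((Ioc 0 N).filter fun m => m % d ∈ R) : ℝ) ≤ ((#R * (N / d + 1) : ℕ) : ℝ) := by
        exact_mod_cast h1
    _ = #R * (((N / d : ℕ) : ℝ) + 1) := by push_cast; ring
    _ ≤ #R * ((N : ℝ) / d + 1) := by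
        gcongr
        exact Nat.cast_div_le

theorem M2_Om_card (hRT : RT_stmt) {N l : ℕ} (hl : l.Prime) : #(M2_Om N l) ≤ 6 := by
  have hlp := hl.pos
  have h0 : #((range l).filter fun n => dv l n) ≤ 2 := by
    have := hRT.2.2.2.1 l hl.squarefree
    rw [hl.primeFactors, card_singleton, pow_one] at this
    exact this
  have h1 : #((range l).filter fun n => n ≡ 0 [MOD l]) ≤ 1 := by
    rw [card_le_one]
    intro a ha b hb
    rw [mem_filter, mem_range] at ha hb
    exact Nat.ModEq.eq_of_lt_of_lt (ha.2.trans hb.2.symm) ha.1 hb.1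
  have h2 : #((range l).filter fun n => n ≡ N [MOD l]) ≤ 1 := by
    rw [card_le_one]
    intro a ha b hb
    rw [mem_filter, mem_range] at ha hb
    exact Nat.ModEq.eq_of_lt_of_lt (ha.2.trans hb.2.symm) ha.1 hb.1
  have h3 : #((range l).filter fun n => dv l (N + (l - 1) * n)) ≤ 2 := by
    refine le_trans ?_ h0
    refine Finset.card_le_card_of_injOn (fun n => (N + (l - 1) * n) % l) ?_ ?_
    · intro n hn
      rw [mem_coe, mem_filter] at hn ⊢
      exact ⟨mem_range.mpr (Nat.mod_lt _ hlp), (M2_dv_congr (Nat.mod_modEq _ _)).mpr hn.2⟩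
    · intro a ha b hb hab
      rw [mem_coe, mem_filter, mem_range] at ha hb
      have h1 : (l - 1) * a ≡ (l - 1) * b [MOD l] := Nat.ModEq.add_left_cancel' N hab
      have hc : Nat.gcd l (l - 1) = 1 := by
        have : Nat.Coprime (l - 1) (l - 1 + 1) := by simp
        rw [show l - 1 + 1 = l by omega] at this
        exact this.symm
      exact Nat.ModEq.eq_of_lt_of_lt (Nat.ModEq.cancel_left_of_coprime hc h1) ha.1 hb.1
  have h4 : M2_Om N l ⊆ ((range l).filter fun n => n ≡ 0 [MOD l]) ∪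
      (((range l).filter fun n => n ≡ N [MOD l]) ∪ (((range l).filter fun n => dv l n) ∪
        ((range l).filter fun n => dv l (N + (l - 1) * n)))) := by
    intro n hn
    rw [M2_Om, mem_filter] at hn
    simp only [mem_union, mem_filter]
    rcases hn.2 with h | h | h | h
    · exact Or.inl ⟨hn.1, h⟩
    · exact Or.inr (Or.inl ⟨hn.1, h⟩)
    · exact Or.inr (Or.inr (Or.inl ⟨hn.1, h⟩))
    · exact Or.inr (Or.inr (Or.inr ⟨hn.1, h⟩))
  calc #(M2_Om N l) ≤ _ := card_le_card h4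
    _ ≤ #((range l).filter fun n => n ≡ 0 [MOD l]) + #(((range l).filter fun n => n ≡ N [MOD l]) ∪
        (((range l).filter fun n => dv l n) ∪
        ((range l).filter fun n => dv l (N + (l - 1) * n)))) := card_union_le _ _
    _ ≤ 1 + (#((range l).filter fun n => n ≡ N [MOD l]) + #(((range l).filter fun n => dv l n) ∪
        ((range l).filter fun n => dv l (N + (l - 1) * n)))) := Nat.add_le_add h1 (card_union_le _ _)
    _ ≤ 1 + (1 + (#((range l).filter fun n => dv l n) +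
        #((range l).filter fun n => dv l (N + (l - 1) * n)))) :=
        Nat.add_le_add_left (Nat.add_le_add h2 (card_union_le _ _)) _
    _ ≤ 6 := by omega

end GD
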