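import Pool.Agent.helper6.GD.M2a

/-! # M2, part b: counting -/

set_option autoImplicit false

namespace GD

open Finset ArithmeticFunction
open Pool.Agent.helper74.TG (ee gb)

/-- sieved integers with two divisibility conditions -/
def M2_T (w N : ℕ) (D D' : Finset ℕ) : ℕ :=
  #((Ioo 0 N).filter fun m => (∀ l ∈ Ps w, m % l ∉ M2_Om N l) ∧ dv (pr D) m ∧ dv (pr D') (N - m))

theorem M2_Ps_prime {w l : ℕ} (hl : l ∈ Ps w) : l.Prime := (mem_filter.mp hl).2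

theorem M2_weight {w N m : ℕ} (hm : m ≤ N) :
    (Lw w m * sh w m) * (Lw w (N - m) * sh w (N - m)) =
      cw w ^ 2 * (if ∀ l ∈ Ps w, m % l ∉ M2_Om N l then 1 else 0) := by
  have hiff : (∀ l ∈ Ps w, m % l ∉ M2_Om N l) ↔ ((∀ l ∈ Ps w, ¬ l ∣ m) ∧ (∀ l ∈ Ps w, ¬ l ∣ N - m) ∧
      (∀ l ∈ Ps w, ¬ dv l m) ∧ (∀ l ∈ Ps w, ¬ dv l (N - m))) := by
    constructor
    · intro h
      refine ⟨fun l hl h1 => h l hl ?_, fun l hl h1 => h l hl ?_, fun l hl h1 => h l hl ?_,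
        fun l hl h1 => h l hl ?_⟩ <;> rw [M2_mem_Om (M2_Ps_prime hl).pos hm]
      · exact Or.inl h1
      · exact Or.inr (Or.inl h1)
      · exact Or.inr (Or.inr (Or.inl h1))
      · exact Or.inr (Or.inr (Or.inr h1))
    · rintro ⟨h1, h2, h3, h4⟩ l hl hmem
      rw [M2_mem_Om (M2_Ps_prime hl).pos hm] at hmem
      rcases hmem with h | h | h | h
      · exact h1 l hl h
      · exact h2 l hl h
      · exact h3 l hl h
      · exact h4 l hl h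
  unfold Lw sh
  by_cases h1 : ∀ l ∈ Ps w, ¬ l ∣ m
  · by_cases h2 : ∀ l ∈ Ps w, ¬ l ∣ N - m
    · by_cases h3 : ∀ l ∈ Ps w, ¬ dv l m
      · by_cases h4 : ∀ l ∈ Ps w, ¬ dv l (N - m)
        · rw [if_pos h1, if_pos h2, if_pos h3, if_pos h4, if_pos (hiff.mpr ⟨h1, h2, h3, h4⟩)]
          ring
        · rw [if_neg h4, if_neg (fun h => h4 (hiff.mp h).2.2.2)]
          ring
      · rw [if_neg h3, if_neg (fun h => h3 (hiff.mp h).2.2.1)]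
        ring
    · rw [if_neg h2, if_neg (fun h => h2 (hiff.mp h).2.1)]
      ring
  · rw [if_neg h1, if_neg (fun h => h1 (hiff.mp h).1)]
    ring

theorem M2_cv (w N : ℕ) (Q₁ Q₂ : Finset ℕ) (ξ₁ ξ₂ : Finset ℕ → ℝ) :
    cv N (fun n => Lw w n * sh w n * Fv Q₁ ξ₁ n) (fun n => Lw w n * sh w n * Fv Q₂ ξ₂ n) =
      cw w ^ 2 * ∑ D₁ ∈ Q₁.powerset, ∑ D₂ ∈ Q₂.powerset, ξ₁ D₁ * ξ₂ D₂ * (M2_T w N D₁ D₂ : ℝ) := by
  have hT : ∀ D₁ D₂ : Finset ℕ, (M2_T w N D₁ D₂ : ℝ) = ∑ m ∈ Ioo 0 N,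
      (if ∀ l ∈ Ps w, m % l ∉ M2_Om N l then (1 : ℝ) else 0) * (if dv (pr D₁) m then 1 else 0) *
        (if dv (pr D₂) (N - m) then 1 else 0) := by
    intro D₁ D₂
    unfold M2_T
    rw [card_filter]
    push_cast
    refine sum_congr rfl fun m _ => ?_
    by_cases h1 : ∀ l ∈ Ps w, m % l ∉ M2_Om N l
    · by_cases h2 : dv (pr D₁) m
      · by_cases h3 : dv (pr D₂) (N - m)
        · rw [if_pos h1, if_pos h2, if_pos h3, if_pos ⟨h1, h2, h3⟩]; ring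
        · rw [if_neg h3, if_neg (fun h => h3 h.2.2)]; ring
      · rw [if_neg h2, if_neg (fun h => h2 h.2.1)]; ring
    · rw [if_neg h1, if_neg (fun h => h1 h.1)]; ring
  unfold cv
  have h1 : ∀ m ∈ Ioo 0 N, (Lw w m * sh w m * Fv Q₁ ξ₁ m) *
      (Lw w (N - m) * sh w (N - m) * Fv Q₂ ξ₂ (N - m)) =
      cw w ^ 2 * ∑ D₁ ∈ Q₁.powerset, ∑ D₂ ∈ Q₂.powerset, ξ₁ D₁ * ξ₂ D₂ *
        ((if ∀ l ∈ Ps w, m % l ∉ M2_Om N l then (1 : ℝ) else 0) * (if dv (pr D₁) m then 1 else 0) *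
        (if dv (pr D₂) (N - m) then 1 else 0)) := by
    intro m hm
    have hmN : m ≤ N := (mem_Ioo.mp hm).2.le
    have h2 := M2_weight (w := w) hmN
    have h3 : (Lw w m * sh w m * Fv Q₁ ξ₁ m) *
      (Lw w (N - m) * sh w (N - m) * Fv Q₂ ξ₂ (N - m)) =
      ((Lw w m * sh w m) * (Lw w (N - m) * sh w (N - m))) *
        (Fv Q₁ ξ₁ m * Fv Q₂ ξ₂ (N - m)) := by ring
    rw [h3, h2]
    unfold Fv
    rw [sum_filter, sum_filter, sum_mul_sum, mul_assoc, mul_sum]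
    congr 1
    refine sum_congr rfl fun D₁ _ => ?_
    rw [mul_sum]
    refine sum_congr rfl fun D₂ _ => ?_
    by_cases h2 : dv (pr D₁) m
    · by_cases h3 : dv (pr D₂) (N - m)
      · rw [if_pos h2, if_pos h3, if_pos h2, if_pos h3]; ring
      · rw [if_neg h3, if_neg h3]; ring
    · rw [if_neg h2, if_neg h2]; ring
  rw [sum_congr rfl h1, ← mul_sum]
  congr 1
  rw [sum_comm]
  refine sum_congr rfl fun D₁ _ => ?_
  rw [sum_comm]
  refine sum_congr rfl fun D₂ _ => ?_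
  rw [hT, mul_sum]

theorem M2_zmod {l N m : ℕ} (hl : l.Prime) (hm : m ≤ N) (hN : 1 ≤ N) (h1 : dv l m)
    (h2 : dv l (N - m)) : l ∣ N * (2 * N ^ 2 - 1) := by
  have : Fact l.Prime := ⟨hl⟩
  have e1 : (8 : ZMod l) * (m : ZMod l) ^ 2 = 1 := by
    have := (ZMod.natCast_eq_natCast_iff _ _ _).mpr h1
    push_cast at this
    exact this
  have e2 : (8 : ZMod l) * ((N : ZMod l) - m) ^ 2 = 1 := by
    have := (ZMod.natCast_eq_natCast_iff _ _ _).mpr h2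
    push_cast [Nat.cast_sub hm] at this
    exact this
  have h8 : (8 : ZMod l) ≠ 0 := by
    intro h
    rw [h, zero_mul] at e1
    exact zero_ne_one e1
  have e3 : (8 : ZMod l) * ((N : ZMod l) * ((N : ZMod l) - 2 * m)) = 0 := by
    linear_combination e2 - e1
  have e4 : (N : ZMod l) * (2 * (N : ZMod l) ^ 2 - 1) = 0 := by
    rcases mul_eq_zero.mp e3 with h | h
    · exact absurd h h8
    rcases mul_eq_zero.mp h with h | h
    · rw [h, zero_mul]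
    · have : (N : ZMod l) = 2 * m := sub_eq_zero.mp h
      rw [this]
      linear_combination (2 * (m : ZMod l)) * e1
  rw [← ZMod.natCast_eq_zero_iff]
  have h3 : 1 ≤ 2 * N ^ 2 := by nlinarith
  push_cast [Nat.cast_sub h3]
  exact e4

theorem M2_dv_dvd {q q' n : ℕ} (h : q ∣ q') (h1 : dv q' n) : dv q n := Nat.ModEq.of_dvd h h1

theorem M2_T_zero {w N : ℕ} {D D' : Finset ℕ} (hN : 1 ≤ N) (hD : ∀ l ∈ D, l.Prime)
    (hT : M2_T w N D D' ≠ 0) : ∀ l ∈ D ∩ D', l ∣ N * (2 * N ^ 2 - 1) := by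
  intro l hl
  rw [mem_inter] at hl
  obtain ⟨m, hm⟩ := card_ne_zero.mp hT
  rw [mem_filter, mem_Ioo] at hm
  exact M2_zmod (hD l hl.1) hm.1.2.le hN (M2_dv_dvd (dvd_prod_of_mem _ hl.1) hm.2.2.1)
    (M2_dv_dvd (dvd_prod_of_mem _ hl.2) hm.2.2.2)

theorem M2_T_le (hRT : RT_stmt) (w N : ℕ) (D D' : Finset ℕ)
    (hD : ∀ l ∈ D, l.Prime ∧ (l % 8 = 1 ∨ l % 8 = 7))
    (hD' : ∀ l ∈ D', l.Prime ∧ (l % 8 = 1 ∨ l % 8 = 7)) :
    (M2_T w N D D' : ℝ) ≤ 2 ^ #(D ∪ D') * ((N : ℝ) / (pr (D ∪ D') : ℝ) + 1) := by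
  have hdis : Disjoint D (D' \ D) := disjoint_sdiff
  obtain ⟨R, -, hR, hRm⟩ := M2_crt hRT D (D' \ D) hD (fun l hl => hD' l (mem_sdiff.mp hl).1) hdis N
  have hU : D ∪ D' = D ∪ (D' \ D) := (union_sdiff_self_eq_union).symm
  have hpr : pr (D ∪ D') = pr D * pr (D' \ D) := by
    rw [hU]; exact prod_union hdis
  have hcard : #(D ∪ D') = #D + #(D' \ D) := by rw [hU]; exact card_union_of_disjoint hdis
  have hpos : 0 < pr D * pr (D' \ D) := Nat.mul_pos (M2_pr_pos fun l hl => (hD l hl).1)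
    (M2_pr_pos fun l hl => (hD' l (mem_sdiff.mp hl).1).1)
  have h1 : M2_T w N D D' ≤ #((Ioc 0 N).filter fun m => m % (pr D * pr (D' \ D)) ∈ R) := by
    refine card_le_card fun m hm => ?_
    rw [mem_filter, mem_Ioo] at hm
    rw [mem_filter, mem_Ioc]
    refine ⟨⟨hm.1.1, hm.1.2.le⟩, (hRm m hm.1.2.le).mp ⟨hm.2.2.1, ?_⟩⟩
    exact M2_dv_dvd (prod_dvd_prod_of_subset _ _ _ sdiff_subset) hm.2.2.2
  calc (M2_T w N D D' : ℝ) ≤ (#((Ioc 0 N).filter fun m => m % (pr D * pr (D' \ D)) ∈ R) : ℝ) := by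
        exact_mod_cast h1
    _ ≤ #R * ((N : ℝ) / ((pr D * pr (D' \ D) : ℕ) : ℝ) + 1) := M2_count hpos R
    _ = 2 ^ #(D ∪ D') * ((N : ℝ) / (pr (D ∪ D') : ℝ) + 1) := by
        rw [hR, hpr, hcard, pow_add]
        push_cast
        ring

theorem M2_T_disj (hRT : RT_stmt) {X w N A : ℕ} {ε : ℝ} (hw : 2 ≤ w) (hN : 1 ≤ N) (hNX : N ≤ X)
    (hM1 : ∀ Ω : ℕ → Finset ℕ, (∀ l ∈ Ps w, Ω l ⊆ range l ∧ #(Ω l) ≤ 6) →
      ∀ d a t : ℕ, 0 < d → t ≤ X → (∀ l ∈ Ps w, Nat.Coprime l d) →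
      |(#((Ioc 0 t).filter fun n => n ≡ a [MOD d] ∧ ∀ l ∈ Ps w, n % l ∉ Ω l) : ℝ)
        - t / d * ∏ l ∈ Ps w, (1 - (#(Ω l) : ℝ) / l)| ≤ X / d / Real.log X ^ A + (X : ℝ) ^ ε)
    (D D' : Finset ℕ) (hD : ∀ l ∈ D, l.Prime ∧ w < l ∧ (l % 8 = 1 ∨ l % 8 = 7))
    (hD' : ∀ l ∈ D', l.Prime ∧ w < l ∧ (l % 8 = 1 ∨ l % 8 = 7)) (hdis : Disjoint D D') :
    |(M2_T w N D D' : ℝ) - N * (∏ l ∈ Ps w, (1 - (om N l : ℝ) / l)) *
        (2 ^ #D * 2 ^ #D' / ((pr D : ℝ) * pr D'))| ≤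
      2 ^ #D * 2 ^ #D' * (X / ((pr D : ℝ) * pr D') / Real.log X ^ A + (X : ℝ) ^ ε) := by
  obtain ⟨R, hRsub, hR, hRm⟩ := M2_crt hRT D D' (fun l hl => ⟨(hD l hl).1, (hD l hl).2.2⟩)
    (fun l hl => ⟨(hD' l hl).1, (hD' l hl).2.2⟩) hdis N
  have hd1 : 0 < pr D := M2_pr_pos fun l hl => (hD l hl).1
  have hd2 : 0 < pr D' := M2_pr_pos fun l hl => (hD' l hl).1
  have hd : 0 < pr D * pr D' := Nat.mul_pos hd1 hd2
  have hcop : ∀ l ∈ Ps w, Nat.Coprime l (pr D * pr D') := by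
    intro l hl
    have hlp := M2_Ps_prime hl
    have hlw : l ≤ w := (mem_Icc.mp (mem_filter.mp hl).1).2
    refine Nat.Coprime.mul_right ?_ ?_
    · refine Nat.Coprime.prod_right fun l' hl' => ?_
      rw [Nat.coprime_primes hlp (hD l' hl').1]
      have := (hD l' hl').2.1
      omega
    · refine Nat.Coprime.prod_right fun l' hl' => ?_
      rw [Nat.coprime_primes hlp (hD' l' hl').1]
      have := (hD' l' hl').2.1
      omega
  have h2 : 2 ∈ Ps w := mem_filter.mpr ⟨mem_Icc.mpr ⟨by norm_num, hw⟩, Nat.prime_two⟩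
  have hset : ((Ioo 0 N).filter fun m => (∀ l ∈ Ps w, m % l ∉ M2_Om N l) ∧ dv (pr D) m ∧
      dv (pr D') (N - m)) = (Ioc 0 N).filter fun m => (∀ l ∈ Ps w, m % l ∉ M2_Om N l) ∧
        m % (pr D * pr D') ∈ R := by
    ext m
    rw [mem_filter, mem_filter, mem_Ioo, mem_Ioc]
    constructor
    · rintro ⟨⟨h0, h1⟩, h3, h4, h5⟩
      exact ⟨⟨h0, h1.le⟩, h3, (hRm m h1.le).mp ⟨h4, h5⟩⟩
    · rintro ⟨⟨h0, h1⟩, h3, h4⟩
      have hne : m ≠ N := by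
        rintro rfl
        apply h3 2 h2
        rw [M2_mem_Om (by norm_num) le_rfl]
        exact Or.inr (Or.inl (by simp))
      obtain ⟨h5, h6⟩ := (hRm m h1).mpr h4
      exact ⟨⟨h0, lt_of_le_of_ne h1 hne⟩, h3, h5, h6⟩
  have hTsum : (M2_T w N D D' : ℝ) = ∑ a ∈ R, (#((Ioc 0 N).filter fun n =>
      n ≡ a [MOD (pr D * pr D')] ∧ ∀ l ∈ Ps w, n % l ∉ M2_Om N l) : ℝ) := by
    unfold M2_T
    rw [hset, card_eq_sum_card_fiberwise (f := fun m => m % (pr D * pr D')) (t := R)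
      (fun m hm => (mem_filter.mp hm).2.2)]
    push_cast
    refine sum_congr rfl fun a ha => ?_
    congr 2
    ext n
    simp only [mem_filter]
    have halt : a < pr D * pr D' := mem_range.mp (hRsub ha)
    constructor
    · rintro ⟨⟨h1, h3, -⟩, h4⟩
      refine ⟨h1, ?_, h3⟩
      show n % _ = a % _
      rw [h4, Nat.mod_eq_of_lt halt]
    · rintro ⟨h1, h3, h4⟩
      have h5 : n % (pr D * pr D') = a := by
        have : n % (pr D * pr D') = a % (pr D * pr D') := h3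
        rw [this, Nat.mod_eq_of_lt halt]
      exact ⟨⟨h1, h4, by rw [h5]; exact ha⟩, h5⟩
  have hmain := fun a => hM1 (M2_Om N) (fun l hl => ⟨filter_subset _ _,
    M2_Om_card hRT (M2_Ps_prime hl)⟩) (pr D * pr D') a N hd hNX hcop
  have hom : ∀ l, om N l = #(M2_Om N l) := fun l => rfl
  have hconst : N * (∏ l ∈ Ps w, (1 - (om N l : ℝ) / l)) * (2 ^ #D * 2 ^ #D' / ((pr D : ℝ) * pr D')) =
      ∑ _a ∈ R, (N : ℝ) / ((pr D * pr D' : ℕ) : ℝ) * ∏ l ∈ Ps w, (1 - (#(M2_Om N l) : ℝ) / l) := by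
    rw [sum_const, hR, nsmul_eq_mul]
    simp only [hom]
    push_cast
    ring
  rw [hTsum, hconst, ← sum_sub_distrib]
  calc |∑ a ∈ R, ((#((Ioc 0 N).filter fun n =>
      n ≡ a [MOD (pr D * pr D')] ∧ ∀ l ∈ Ps w, n % l ∉ M2_Om N l) : ℝ) -
        (N : ℝ) / ((pr D * pr D' : ℕ) : ℝ) * ∏ l ∈ Ps w, (1 - (#(M2_Om N l) : ℝ) / l))|
      ≤ ∑ a ∈ R, |(#((Ioc 0 N).filter fun n =>
      n ≡ a [MOD (pr D * pr D')] ∧ ∀ l ∈ Ps w, n % l ∉ M2_Om N l) : ℝ) -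
        (N : ℝ) / ((pr D * pr D' : ℕ) : ℝ) * ∏ l ∈ Ps w, (1 - (#(M2_Om N l) : ℝ) / l)| :=
        abs_sum_le_sum_abs _ _
    _ ≤ ∑ _a ∈ R, (X / ((pr D * pr D' : ℕ) : ℝ) / Real.log X ^ A + (X : ℝ) ^ ε) :=
        sum_le_sum fun a _ => hmain a
    _ = 2 ^ #D * 2 ^ #D' * (X / ((pr D : ℝ) * pr D') / Real.log X ^ A + (X : ℝ) ^ ε) := by
        rw [sum_const, hR, nsmul_eq_mul]
        push_cast
        ring

end GD
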