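import Pool.Agent.helper6.GD.M2b

/-! # M2, part c: sums over sets of primes -/

set_option autoImplicit false

namespace GD

open Finset ArithmeticFunction
open Pool.Agent.helper74.TG (ee gb)

theorem M2_one_le_cw (X : ℕ) : 1 ≤ cw X := by
  unfold cw
  refine Finset.one_le_prod fun l hl => ?_
  have h2 : (2 : ℝ) ≤ l := by exact_mod_cast (M2_Ps_prime hl).two_le
  have h3 : 1 / (l : ℝ) ≤ 1 / 2 := one_div_le_one_div_of_le (by norm_num) h2
  have h4 : 0 < 1 / (l : ℝ) := by positivity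
  rw [one_le_inv₀ (by linarith)]
  linarith

theorem M2_sum_le {X : ℕ} (κ : ℕ) {P : Finset ℕ} (hP : P ⊆ Ps X) :
    ∑ D ∈ P.powerset, (κ : ℝ) ^ #D / (pr D : ℝ) ≤ cw X ^ κ := by
  have h1 : ∑ D ∈ P.powerset, (κ : ℝ) ^ #D / (pr D : ℝ) = ∏ p ∈ P, ((κ : ℝ) / p + 1) := by
    rw [prod_add_one]
    refine sum_congr rfl fun D _ => ?_
    rw [prod_div_distrib, prod_const]
    congr 1
    unfold pr
    push_cast
    rfl
  rw [h1]
  have hpt : ∀ p ∈ Ps X, (1 : ℝ) ≤ (κ : ℝ) / p + 1 ∧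
      (κ : ℝ) / p + 1 ≤ ((1 - 1 / (p : ℝ))⁻¹) ^ κ := by
    intro p hp
    have h2 : (2 : ℝ) ≤ p := by exact_mod_cast (M2_Ps_prime hp).two_le
    have h3 : 1 / (p : ℝ) ≤ 1 / 2 := one_div_le_one_div_of_le (by norm_num) h2
    have h4 : 0 < 1 / (p : ℝ) := by positivity
    refine ⟨by have : 0 ≤ (κ : ℝ) / p := by positivity
               linarith, ?_⟩
    have h5 : 1 + (κ : ℝ) * (1 / (p : ℝ)) ≤ (1 + 1 / (p : ℝ)) ^ κ :=
      one_add_mul_le_pow (by linarith) κ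
    have h6 : 1 + 1 / (p : ℝ) ≤ (1 - 1 / (p : ℝ))⁻¹ := by
      rw [le_inv_comm₀ (by linarith) (by linarith), ← one_div (1 + 1 / (p : ℝ)),
        le_div_iff₀ (by linarith)]
      nlinarith
    calc (κ : ℝ) / p + 1 = 1 + (κ : ℝ) * (1 / (p : ℝ)) := by ring
      _ ≤ (1 + 1 / (p : ℝ)) ^ κ := h5
      _ ≤ _ := pow_le_pow_left₀ (by linarith) h6 κ
  calc ∏ p ∈ P, ((κ : ℝ) / p + 1) ≤ ∏ p ∈ Ps X, ((κ : ℝ) / p + 1) := by
        refine Finset.prod_le_prod_of_subset_of_one_le hP (fun p hp => ?_) (fun p hp _ => (hpt p hp).1)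
        linarith [(hpt p (hP hp)).1]
    _ ≤ ∏ p ∈ Ps X, ((1 - 1 / (p : ℝ))⁻¹) ^ κ :=
        prod_le_prod (fun p hp => by linarith [(hpt p hp).1]) (fun p hp => (hpt p hp).2)
    _ = cw X ^ κ := by rw [prod_pow]; rfl

theorem M2_sum_mem_le {X : ℕ} (κ : ℕ) {P : Finset ℕ} (hP : P ⊆ Ps X) {l : ℕ} (hl : l ∈ P) :
    ∑ D ∈ P.powerset with l ∈ D, (κ : ℝ) ^ #D / (pr D : ℝ) ≤ κ / l * cw X ^ κ := by
  have h1 : ∑ D ∈ P.powerset with l ∈ D, (κ : ℝ) ^ #D / (pr D : ℝ) =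
      ∑ D ∈ (P.erase l).powerset, (κ : ℝ) / l * ((κ : ℝ) ^ #D / (pr D : ℝ)) := by
    refine sum_nbij' (fun D => D.erase l) (fun D => insert l D) ?_ ?_ ?_ ?_ ?_
    · intro D hD
      rw [mem_filter, mem_powerset] at hD
      exact mem_powerset.mpr (erase_subset_erase l hD.1)
    · intro D hD
      rw [mem_powerset] at hD
      rw [mem_filter, mem_powerset]
      exact ⟨insert_subset hl (hD.trans (erase_subset _ _)), mem_insert_self _ _⟩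
    · intro D hD
      rw [mem_filter] at hD
      exact insert_erase hD.2
    · intro D hD
      rw [mem_powerset] at hD
      exact erase_insert fun h => notMem_erase l P (hD h)
    · intro D hD
      rw [mem_filter] at hD
      have h2 : (pr D : ℝ) = l * pr (D.erase l) := by
        have : l * pr (D.erase l) = pr D := mul_prod_erase D (fun x => x) hD.2
        exact_mod_cast this.symm
      have h3 : #D = #(D.erase l) + 1 := (card_erase_add_one hD.2).symm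
      rw [h2, h3, pow_succ]
      rw [div_mul_div_comm, mul_comm ((κ : ℝ) ^ _)]
  rw [h1, ← mul_sum]
  exact mul_le_mul_of_nonneg_left (M2_sum_le κ ((erase_subset _ _).trans hP)) (by positivity)

theorem M2_union_le (P : Finset ℕ) (h : Finset ℕ → ℝ) (hh : ∀ U, 0 ≤ h U) :
    ∑ D ∈ P.powerset ×ˢ P.powerset, h (D.1 ∪ D.2) ≤ ∑ U ∈ P.powerset, 4 ^ #U * h U := by
  rw [← sum_fiberwise_of_maps_to (s := P.powerset ×ˢ P.powerset) (t := P.powerset)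
    (g := fun D => D.1 ∪ D.2)]
  · refine sum_le_sum fun U _ => ?_
    have h1 : ∑ D ∈ P.powerset ×ˢ P.powerset with D.1 ∪ D.2 = U, h (D.1 ∪ D.2) =
        ∑ _D ∈ (P.powerset ×ˢ P.powerset).filter (fun D => D.1 ∪ D.2 = U), h U :=
      sum_congr rfl fun D hD => by rw [(mem_filter.mp hD).2]
    rw [h1, sum_const, nsmul_eq_mul]
    refine mul_le_mul_of_nonneg_right ?_ (hh U)
    have h2 : (P.powerset ×ˢ P.powerset).filter (fun D => D.1 ∪ D.2 = U) ⊆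
        U.powerset ×ˢ U.powerset := by
      intro D hD
      rw [mem_filter] at hD
      rw [mem_product, mem_powerset, mem_powerset, ← hD.2]
      exact ⟨subset_union_left, subset_union_right⟩
    have h3 := card_le_card h2
    rw [card_product, card_powerset, ← mul_pow] at h3
    exact_mod_cast h3
  · intro D hD
    rw [mem_product, mem_powerset, mem_powerset] at hD
    exact mem_powerset.mpr (union_subset hD.1 hD.2)

/-- the majorant for one pair -/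
noncomputable def M2_F (X Y : ℝ) (P B : Finset ℕ) (D : Finset ℕ × Finset ℕ) : ℝ :=
  2 ^ #D.1 * 2 ^ #D.2 / ((pr D.1 : ℝ) * pr D.2) * Y +
    X * ∑ l ∈ B, (if l ∈ D.1 ∧ l ∈ D.2 then 2 ^ #(D.1 ∪ D.2) / (pr (D.1 ∪ D.2) : ℝ) else 0) +
    X * ∑ l ∈ P, (if l ∈ D.1 ∧ l ∈ D.2 then 2 ^ #D.1 * 2 ^ #D.2 / ((pr D.1 : ℝ) * pr D.2) else 0)

theorem M2_F_nonneg {X Y : ℝ} (hX : 0 ≤ X) (hY : 0 ≤ Y) (P B : Finset ℕ)
    (D : Finset ℕ × Finset ℕ) : 0 ≤ M2_F X Y P B D := by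
  unfold M2_F
  have h1 : 0 ≤ ∑ l ∈ B, (if l ∈ D.1 ∧ l ∈ D.2 then
      (2 : ℝ) ^ #(D.1 ∪ D.2) / (pr (D.1 ∪ D.2) : ℝ) else 0) :=
    sum_nonneg fun l _ => by split_ifs <;> positivity
  have h2 : 0 ≤ ∑ l ∈ P, (if l ∈ D.1 ∧ l ∈ D.2 then
      (2 : ℝ) ^ #D.1 * 2 ^ #D.2 / ((pr D.1 : ℝ) * pr D.2) else 0) :=
    sum_nonneg fun l _ => by split_ifs <;> positivity
  positivity

theorem M2_sum_F {X w K : ℕ} {Y : ℝ} (hK : 1 ≤ K) (hw : 1 ≤ w) (hY : 0 ≤ Y)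
    {P B : Finset ℕ} (hP : P ⊆ Ps X) (hPw : ∀ l ∈ P, w < l) (hB : B ⊆ P) :
    ∑ D ∈ P.powerset ×ˢ P.powerset, (K : ℝ) ^ #D.1 * (K : ℝ) ^ #D.2 * M2_F X Y P B D ≤
      Y * (cw X ^ (2 * K)) ^ 2 + X * (#B * ((8 * K ^ 2 : ℕ) / (w : ℝ) * cw X ^ (8 * K ^ 2))) +
        X * ((2 * K : ℕ) ^ 2 / (w : ℝ) * (cw X ^ (2 * K)) ^ 2) := by
  have hcw := M2_one_le_cw X
  have hcw0 : 0 ≤ cw X := by linarith
  have hw0 : (0 : ℝ) < w := by exact_mod_cast hw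
  have hK1 : (1 : ℝ) ≤ K := by exact_mod_cast hK
  let E : Finset ℕ → ℝ := fun D => ((2 * K : ℕ) : ℝ) ^ #D / (pr D : ℝ)
  have hE : ∀ D : Finset ℕ × Finset ℕ, (K : ℝ) ^ #D.1 * (K : ℝ) ^ #D.2 *
      (2 ^ #D.1 * 2 ^ #D.2 / ((pr D.1 : ℝ) * pr D.2)) = E D.1 * E D.2 := by
    intro D
    simp only [E]
    push_cast
    rw [mul_pow, mul_pow, div_mul_div_comm]
    ring
  have hEnn : ∀ D, 0 ≤ E D := fun D => by simp only [E]; positivity
  -- split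
  have hsplit : ∑ D ∈ P.powerset ×ˢ P.powerset, (K : ℝ) ^ #D.1 * (K : ℝ) ^ #D.2 * M2_F X Y P B D =
      Y * ∑ D ∈ P.powerset ×ˢ P.powerset, E D.1 * E D.2 +
      X * ∑ l ∈ B, ∑ D ∈ P.powerset ×ˢ P.powerset, (if l ∈ D.1 ∧ l ∈ D.2 then
        (K : ℝ) ^ #D.1 * (K : ℝ) ^ #D.2 * (2 ^ #(D.1 ∪ D.2) / (pr (D.1 ∪ D.2) : ℝ)) else 0) +
      X * ∑ l ∈ P, ∑ D ∈ P.powerset ×ˢ P.powerset, (if l ∈ D.1 ∧ l ∈ D.2 then
        E D.1 * E D.2 else 0) := by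
    rw [mul_sum, sum_comm, sum_comm (s := P), mul_sum, mul_sum, ← sum_add_distrib,
      ← sum_add_distrib]
    refine sum_congr rfl fun D _ => ?_
    unfold M2_F
    rw [← hE D, mul_add, mul_add]
    congr 1
    · congr 1
      · ring
      · rw [mul_left_comm, mul_sum]
        congr 1
        refine sum_congr rfl fun l _ => ?_
        rw [mul_ite, mul_zero]
    · rw [mul_left_comm, mul_sum]
      congr 1
      refine sum_congr rfl fun l _ => ?_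
      rw [mul_ite, mul_zero]
  rw [hsplit]
  -- first part
  have hp1 : ∑ D ∈ P.powerset ×ˢ P.powerset, E D.1 * E D.2 ≤ (cw X ^ (2 * K)) ^ 2 := by
    have h1 : ∑ D ∈ P.powerset ×ˢ P.powerset, E D.1 * E D.2 = (∑ D ∈ P.powerset, E D) ^ 2 := by
      rw [pow_two, sum_mul_sum, ← sum_product']
    rw [h1]
    exact pow_le_pow_left₀ (sum_nonneg fun D _ => hEnn D) (M2_sum_le (2 * K) hP) 2
  -- second part
  have hp2 : ∀ l ∈ B, ∑ D ∈ P.powerset ×ˢ P.powerset, (if l ∈ D.1 ∧ l ∈ D.2 then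
        (K : ℝ) ^ #D.1 * (K : ℝ) ^ #D.2 * (2 ^ #(D.1 ∪ D.2) / (pr (D.1 ∪ D.2) : ℝ)) else 0) ≤
      (8 * K ^ 2 : ℕ) / (w : ℝ) * cw X ^ (8 * K ^ 2) := by
    intro l hl
    let h : Finset ℕ → ℝ := fun U => if l ∈ U then ((2 * K ^ 2 : ℕ) : ℝ) ^ #U / (pr U : ℝ) else 0
    have hh : ∀ U, 0 ≤ h U := fun U => by simp only [h]; split_ifs <;> positivity
    calc ∑ D ∈ P.powerset ×ˢ P.powerset, (if l ∈ D.1 ∧ l ∈ D.2 then
          (K : ℝ) ^ #D.1 * (K : ℝ) ^ #D.2 * (2 ^ #(D.1 ∪ D.2) / (pr (D.1 ∪ D.2) : ℝ)) else 0)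
        ≤ ∑ D ∈ P.powerset ×ˢ P.powerset, h (D.1 ∪ D.2) := by
          refine sum_le_sum fun D _ => ?_
          by_cases hc : l ∈ D.1 ∧ l ∈ D.2
          · rw [if_pos hc]
            have hlU : l ∈ D.1 ∪ D.2 := mem_union_left _ hc.1
            simp only [h, if_pos hlU]
            have h1 : (K : ℝ) ^ #D.1 ≤ (K : ℝ) ^ #(D.1 ∪ D.2) :=
              pow_le_pow_right₀ hK1 (card_le_card subset_union_left)
            have h2 : (K : ℝ) ^ #D.2 ≤ (K : ℝ) ^ #(D.1 ∪ D.2) :=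
              pow_le_pow_right₀ hK1 (card_le_card subset_union_right)
            have h3 : (K : ℝ) ^ #D.1 * (K : ℝ) ^ #D.2 ≤
                (K : ℝ) ^ #(D.1 ∪ D.2) * (K : ℝ) ^ #(D.1 ∪ D.2) :=
              mul_le_mul h1 h2 (by positivity) (by positivity)
            calc (K : ℝ) ^ #D.1 * (K : ℝ) ^ #D.2 * (2 ^ #(D.1 ∪ D.2) / (pr (D.1 ∪ D.2) : ℝ))
                ≤ (K : ℝ) ^ #(D.1 ∪ D.2) * (K : ℝ) ^ #(D.1 ∪ D.2) *
                  (2 ^ #(D.1 ∪ D.2) / (pr (D.1 ∪ D.2) : ℝ)) :=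
                  mul_le_mul_of_nonneg_right h3 (by positivity)
              _ = ((2 * K ^ 2 : ℕ) : ℝ) ^ #(D.1 ∪ D.2) / (pr (D.1 ∪ D.2) : ℝ) := by
                  push_cast
                  rw [mul_pow, ← pow_mul, mul_comm 2 #(D.1 ∪ D.2), pow_mul]
                  ring
          · rw [if_neg hc]
            exact hh _
      _ ≤ ∑ U ∈ P.powerset, 4 ^ #U * h U := M2_union_le P h hh
      _ = ∑ U ∈ P.powerset with l ∈ U, ((8 * K ^ 2 : ℕ) : ℝ) ^ #U / (pr U : ℝ) := by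
          rw [sum_filter]
          refine sum_congr rfl fun U _ => ?_
          simp only [h]
          split_ifs
          · rw [← mul_div_assoc, ← mul_pow]
            congr 2
            push_cast
            ring
          · ring
      _ ≤ (8 * K ^ 2 : ℕ) / (l : ℝ) * cw X ^ (8 * K ^ 2) := M2_sum_mem_le _ hP (hB hl)
      _ ≤ (8 * K ^ 2 : ℕ) / (w : ℝ) * cw X ^ (8 * K ^ 2) := by
          refine mul_le_mul_of_nonneg_right ?_ (by positivity)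
          refine div_le_div_of_nonneg_left (by positivity) hw0 ?_
          exact_mod_cast (hPw l (hB hl)).le
  -- third part
  have hp3 : ∀ l ∈ P, ∑ D ∈ P.powerset ×ˢ P.powerset, (if l ∈ D.1 ∧ l ∈ D.2 then
        E D.1 * E D.2 else 0) ≤ (2 * K : ℕ) ^ 2 * (cw X ^ (2 * K)) ^ 2 * (((l : ℝ) ^ 2)⁻¹) := by
    intro l hl
    have h1 : ∑ D ∈ P.powerset ×ˢ P.powerset, (if l ∈ D.1 ∧ l ∈ D.2 then
        E D.1 * E D.2 else 0) = (∑ D ∈ P.powerset with l ∈ D, E D) ^ 2 := by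
      rw [pow_two, sum_mul_sum, ← sum_product', ← filter_product, sum_filter]
    have h2 := M2_sum_mem_le (2 * K) hP hl
    rw [h1]
    calc (∑ D ∈ P.powerset with l ∈ D, E D) ^ 2 ≤ ((2 * K : ℕ) / (l : ℝ) * cw X ^ (2 * K)) ^ 2 :=
          pow_le_pow_left₀ (sum_nonneg fun D _ => hEnn D) h2 2
      _ = (2 * K : ℕ) ^ 2 * (cw X ^ (2 * K)) ^ 2 * (((l : ℝ) ^ 2)⁻¹) := by
          rw [mul_pow, div_pow]; ring
  have hsq : ∑ l ∈ P, (((l : ℝ) ^ 2)⁻¹) ≤ (w : ℝ)⁻¹ := by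
    by_cases hwX : w ≤ X
    · have hsub : P ⊆ Ioc w X := by
        intro l hl
        exact mem_Ioc.mpr ⟨hPw l hl, (mem_Icc.mp (mem_filter.mp (hP hl)).1).2⟩
      calc ∑ l ∈ P, (((l : ℝ) ^ 2)⁻¹) ≤ ∑ l ∈ Ioc w X, (((l : ℝ) ^ 2)⁻¹) :=
            sum_le_sum_of_subset_of_nonneg hsub fun _ _ _ => by positivity
        _ ≤ (w : ℝ)⁻¹ - (X : ℝ)⁻¹ := sum_Ioc_inv_sq_le_sub (by omega) hwX
        _ ≤ (w : ℝ)⁻¹ := by
            have : 0 ≤ (X : ℝ)⁻¹ := by positivity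
            linarith
    · have : P = ∅ := by
        rw [eq_empty_iff_forall_notMem]
        intro l hl
        have h1 := hPw l hl
        have h2 := (mem_Icc.mp (mem_filter.mp (hP hl)).1).2
        omega
      rw [this, sum_empty]
      positivity
  have hX0 : (0 : ℝ) ≤ X := Nat.cast_nonneg X
  refine add_le_add (add_le_add (mul_le_mul_of_nonneg_left hp1 hY)
    (mul_le_mul_of_nonneg_left ?_ hX0)) (mul_le_mul_of_nonneg_left ?_ hX0)
  · calc _ ≤ ∑ _l ∈ B, (8 * K ^ 2 : ℕ) / (w : ℝ) * cw X ^ (8 * K ^ 2) := sum_le_sum hp2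
      _ = _ := by rw [sum_const, nsmul_eq_mul]
  · calc _ ≤ ∑ l ∈ P, (2 * K : ℕ) ^ 2 * (cw X ^ (2 * K)) ^ 2 * (((l : ℝ) ^ 2)⁻¹) := sum_le_sum hp3
      _ = (2 * K : ℕ) ^ 2 * (cw X ^ (2 * K)) ^ 2 * ∑ l ∈ P, (((l : ℝ) ^ 2)⁻¹) := by rw [mul_sum]
      _ ≤ (2 * K : ℕ) ^ 2 * (cw X ^ (2 * K)) ^ 2 * (w : ℝ)⁻¹ :=
          mul_le_mul_of_nonneg_left hsq (by positivity)
      _ = _ := by ring

end GD
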